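import Mathlib
import Pool.Agent.Work.MP_db9399_exp_helper38.Base

/-!
# Block INS of THEOREM EXP, part A: groups of colours, targets, counting lemmas
-/

set_option autoImplicit false
set_option linter.unusedSectionVars false

namespace Pool.Agent.Work.MP_db9399_exp.helper46.INSAux

open Finset Classical
open Pool.Agent.Work.MP_db9399_all (nb mis)
open Pool.Agent.Work.MP_db9399_qr (cov PEC ins sd PMat W0 imb ZQ Good)
open Pool.Agent.Work.MP_db9399_exp
open Pool.Agent.Work.MP_db9399_exp.helper38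

universe u

theorem mem_nb {V : Type u} [Fintype V] {G : SimpleGraph V} {v w : V} : w ∈ nb G v ↔ G.Adj v w := by
  simp [nb]

theorem mem_cov {V : Type u} [Fintype V] {C : Type} {R : SimpleGraph V} {t : V → V → C} {b : C}
    {v : V} : v ∈ cov R t b ↔ ∃ w, R.Adj v w ∧ t v w = b := by simp [cov]

theorem mem_sd {V : Type u} [Fintype V] {side : V → Bool} {s : Bool} {v : V} :
    v ∈ sd side s ↔ side v = s := by simp [sd]

theorem mem_cls {V : Type u} [Fintype V] {T : Type} {U : Finset V} {π : V → T} {P : Finset T}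
    {v : V} : v ∈ cls U π P ↔ v ∉ U ∧ π v ∈ P := by simp [cls]

/-- three exclusive predicates -/
theorem four {α : Type*} (S W SA SB SC : Finset α) (A B C : α → Prop)
    (hW : ∀ x, x ∈ W ↔ x ∈ S ∧ ¬ A x ∧ ¬ B x ∧ ¬ C x) (hA : ∀ x, x ∈ SA ↔ x ∈ S ∧ A x)
    (hB : ∀ x, x ∈ SB ↔ x ∈ S ∧ B x) (hC : ∀ x, x ∈ SC ↔ x ∈ S ∧ C x)
    (hAB : ∀ x ∈ S, A x → ¬ B x) (hAC : ∀ x ∈ S, A x → ¬ C x) (hBC : ∀ x ∈ S, B x → ¬ C x) :
    W.card + SA.card + SB.card + SC.card = S.card := by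
  rw [← card_union_of_disjoint, ← card_union_of_disjoint, ← card_union_of_disjoint]
  · congr 1
    ext x
    rw [mem_union, mem_union, mem_union, hW, hA, hB, hC]
    by_cases h1 : A x <;> by_cases h2 : B x <;> by_cases h3 : C x <;> tauto
  · rw [Finset.disjoint_left]
    intro x hx hx'
    rw [mem_union, mem_union, hW, hA, hB] at hx
    rw [hC] at hx'
    rcases hx with (h | h) | h
    · exact h.2.2.2 hx'.2
    · exact hAC x hx'.1 h.2 hx'.2
    · exact hBC x hx'.1 h.2 hx'.2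
  · rw [Finset.disjoint_left]
    intro x hx hx'
    rw [mem_union, hW, hA] at hx
    rw [hB] at hx'
    rcases hx with h | h
    · exact h.2.2.1 hx'.2
    · exact hAB x hx'.1 h.2 hx'.2
  · rw [Finset.disjoint_left]
    intro x hx hx'
    rw [hW] at hx
    rw [hA] at hx'
    exact hx.2.1 hx'.2

section A
variable {m r : ℕ} {V : Type u} [Fintype V] {k d : ℕ} {G : SimpleGraph V} {U : Finset V}
  {F : V → Finset (Fin k)} (X : Ctx m r k d G U F)

/-- the group `(i, j)` -/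
noncomputable def grp (i j : ZMod (2 * m + 1)) : Finset (Fin k) :=
  X.Ga.filter (fun b => X.gi b = i ∧ X.gj b = j)

theorem card_grp (i j : ZMod (2 * m + 1)) : (grp X i j).card = (2 * r + 1) * X.u := by
  have h : (grp X i j).card = ((univ : Finset (ZMod (2 * r + 1))) ×ˢ range X.u).card := by
    apply Finset.card_nbij (fun b => (X.gs b, X.gk b))
    · intro b hb
      rw [mem_coe, grp, mem_filter] at hb
      rw [mem_coe, mem_product]
      exact ⟨mem_univ _, mem_range.2 (X.glt b hb.1)⟩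
    · intro b hb b' hb' h
      rw [grp, mem_coe, mem_filter] at hb hb'
      simp only [Prod.mk.injEq] at h
      exact X.ginj b hb.1 b' hb'.1 (hb.2.1.trans hb'.2.1.symm) (hb.2.2.trans hb'.2.2.symm) h.1 h.2
    · rintro ⟨s, l⟩ hl
      rw [mem_coe, mem_product, mem_range] at hl
      obtain ⟨b, hb, h1, h2, h3, h4⟩ := X.gex i j s l hl.2
      refine ⟨b, ?_, ?_⟩
      · rw [grp, mem_coe, mem_filter]
        exact ⟨hb, h1, h2⟩
      · simp [h3, h4]
  rw [h, card_product, card_univ, ZMod.card, card_range]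

theorem sum_grp {β : Type*} [AddCommMonoid β] (f : Fin k → β) :
    ∑ b ∈ X.Ga, f b = ∑ p : ZMod (2 * m + 1) × ZMod (2 * m + 1), ∑ b ∈ grp X p.1 p.2, f b := by
  rw [← Finset.sum_fiberwise_of_maps_to (s := X.Ga) (t := univ) (g := fun b => (X.gi b, X.gj b))
    (fun _ _ => mem_univ _)]
  refine Finset.sum_congr rfl fun p _ => ?_
  refine Finset.sum_congr ?_ fun _ _ => rfl
  ext b
  rw [grp, mem_filter, mem_filter, Prod.ext_iff]

theorem card_Ga : X.Ga.card = (2 * m + 1) ^ 2 * ((2 * r + 1) * X.u) := by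
  rw [card_eq_sum_ones, sum_grp X]
  rw [Finset.sum_congr rfl fun p _ => by rw [← card_eq_sum_ones, card_grp]]
  rw [sum_const, card_univ, Fintype.card_prod, ZMod.card, smul_eq_mul]
  ring

theorem Ga_le : X.Ga.card ≤ d := by
  have h := num_u X
  have h1 : (X.Ga.card : ℝ) = (2 * (m : ℝ) + 1) ^ 2 * X.u * (2 * (r : ℝ) + 1) := by
    rw [card_Ga]
    push_cast
    ring
  have h2 : (0 : ℝ) ≤ d := Nat.cast_nonneg _
  have h3 : (X.Ga.card : ℝ) ≤ d := by rw [h1]; linarith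
  exact_mod_cast h3

theorem Ga_ge : (d : ℝ) ≤ 2 * X.Ga.card := by
  have h := X.ulo
  have hM := num_M X
  have h2 : (0 : ℝ) ≤ d := Nat.cast_nonneg _
  have h1 : (X.Ga.card : ℝ) = (2 * (m : ℝ) + 1) ^ 2 * ((2 * (r : ℝ) + 1) * X.u) := by
    rw [card_Ga]
    push_cast
    ring
  rw [h1]
  set M1 : ℝ := 2 * (m : ℝ) + 1 with hM1
  have e : (2 * (m : ℝ)) = M1 - 1 := by rw [hM1]; ring
  set w : ℝ := (2 * (r : ℝ) + 1) * X.u with hw
  have h0 : 0 ≤ w := by positivity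
  have h3 : (1 - 1 / M1 ^ 7) * d ≤ 2 * (M1 * (M1 - 1)) * w := by
    calc (1 - 1 / M1 ^ 7) * d ≤ 2 * M1 * (2 * (r : ℝ) + 1) * (2 * m * X.u) := h
      _ = 2 * (M1 * (M1 - 1)) * w := by rw [← e, hw]; ring
  have hM0 : (0 : ℝ) < M1 := by linarith [show (0:ℝ) < 10 ^ 9 by norm_num]
  -- (M1 - 1) ≤ (1 - 1/M1^7) M1
  have h4 : M1 - 1 ≤ (1 - 1 / M1 ^ 7) * M1 := by
    have h5 : 1 / M1 ^ 7 * M1 = 1 / M1 ^ 6 := by field_simp
    have h6 : 1 / M1 ^ 6 ≤ 1 := by
      rw [div_le_one (by positivity)]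
      exact one_le_pow₀ (by linarith [show (1:ℝ) < 10 ^ 9 by norm_num])
    have : (1 - 1 / M1 ^ 7) * M1 = M1 - 1 / M1 ^ 7 * M1 := by ring
    rw [this, h5]
    linarith
  have h7 : 0 < 1 - 1 / M1 ^ 7 := by
    have : 0 < (1 - 1 / M1 ^ 7) * M1 := by
      have : (10:ℝ) ^ 9 - 1 > 0 := by norm_num
      linarith
    exact (mul_pos_iff_of_pos_right hM0).mp this
  have h8 : (1 - 1 / M1 ^ 7) * d ≤ (1 - 1 / M1 ^ 7) * (2 * (M1 ^ 2 * w)) := by
    refine h3.trans ?_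
    have : 2 * M1 * w * (M1 - 1) ≤ 2 * M1 * w * ((1 - 1 / M1 ^ 7) * M1) := by
      apply mul_le_mul_of_nonneg_left h4
      positivity
    linarith
  exact le_of_mul_le_mul_left h8 h7

/-- the target sum of every group -/
noncomputable def TT : ℤ := -((X.p : ℤ) * (((d - X.Ga.card) / (2 * m + 1) ^ 2 : ℕ) : ℤ))

theorem TT_le : TT X ≤ 0 := by
  unfold TT
  have : (0 : ℤ) ≤ (X.p : ℤ) * (((d - X.Ga.card) / (2 * m + 1) ^ 2 : ℕ) : ℤ) := by positivity
  omega

theorem TT_ge : -(((2 * r + 1) * X.u : ℕ) : ℤ) ≤ TT X := by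
  unfold TT
  have h1 : (d - X.Ga.card) / (2 * m + 1) ^ 2 ≤ (2 * r + 1) * X.u := by
    apply Nat.div_le_of_le_mul
    rw [← card_Ga]
    have h := Ga_ge X
    have h' : d ≤ 2 * X.Ga.card := by exact_mod_cast h
    omega
  have h2 : (X.p : ℤ) ≤ 1 := by exact_mod_cast X.p1
  have h3 : (0 : ℤ) ≤ X.p := by positivity
  have h4 : (((d - X.Ga.card) / (2 * m + 1) ^ 2 : ℕ) : ℤ) ≤ (((2 * r + 1) * X.u : ℕ) : ℤ) := by
    exact_mod_cast h1
  have h5 : (0 : ℤ) ≤ (((d - X.Ga.card) / (2 * m + 1) ^ 2 : ℕ) : ℤ) := by positivity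
  have : (X.p : ℤ) * (((d - X.Ga.card) / (2 * m + 1) ^ 2 : ℕ) : ℤ) ≤
      1 * (((d - X.Ga.card) / (2 * m + 1) ^ 2 : ℕ) : ℤ) := mul_le_mul_of_nonneg_right h2 h5
  linarith

theorem TT_sum : |(X.p : ℤ) * ((d : ℤ) - X.Ga.card) + ((2 * m + 1) ^ 2 : ℕ) * TT X| ≤
    ((2 * m + 1) ^ 2 : ℕ) := by
  unfold TT
  have h1 := Nat.div_add_mod (d - X.Ga.card) ((2 * m + 1) ^ 2)
  have h2 := Nat.mod_lt (d - X.Ga.card) (show 0 < (2 * m + 1) ^ 2 by positivity)
  have h3 : ((d - X.Ga.card : ℕ) : ℤ) = (d : ℤ) - X.Ga.card := by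
    have := Ga_le X
    push_cast [this]
    ring
  have h4 : ((2 * m + 1) ^ 2 : ℕ) * (((d - X.Ga.card) / (2 * m + 1) ^ 2 : ℕ) : ℤ) +
      (((d - X.Ga.card) % (2 * m + 1) ^ 2 : ℕ) : ℤ) = (d : ℤ) - X.Ga.card := by
    rw [← h3]
    exact_mod_cast h1
  have h5 : (X.p : ℤ) * ((d : ℤ) - X.Ga.card) +
      ((2 * m + 1) ^ 2 : ℕ) * -((X.p : ℤ) * (((d - X.Ga.card) / (2 * m + 1) ^ 2 : ℕ) : ℤ)) =
      (X.p : ℤ) * (((d - X.Ga.card) % (2 * m + 1) ^ 2 : ℕ) : ℤ) := by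
    rw [← h4]; ring
  rw [h5]
  have h6 : (X.p : ℤ) ≤ 1 := by exact_mod_cast X.p1
  have h7 : (0 : ℤ) ≤ X.p := by positivity
  have h8 : (0 : ℤ) ≤ (((d - X.Ga.card) % (2 * m + 1) ^ 2 : ℕ) : ℤ) := by positivity
  have h9 : (((d - X.Ga.card) % (2 * m + 1) ^ 2 : ℕ) : ℤ) < ((2 * m + 1) ^ 2 : ℕ) := by
    exact_mod_cast h2
  rw [abs_le]
  constructor
  · have : 0 ≤ (X.p : ℤ) * (((d - X.Ga.card) % (2 * m + 1) ^ 2 : ℕ) : ℤ) := by positivity
    have h10 : (0 : ℤ) ≤ ((2 * m + 1) ^ 2 : ℕ) := by positivity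
    linarith
  · have : (X.p : ℤ) * (((d - X.Ga.card) % (2 * m + 1) ^ 2 : ℕ) : ℤ) ≤
      1 * (((d - X.Ga.card) % (2 * m + 1) ^ 2 : ℕ) : ℤ) := mul_le_mul_of_nonneg_right h6 h8
    linarith

/-- the targets -/
theorem targets (hT : Stmt_TGT) (x : Fin k → ℤ) : ∃ e : Fin k → ℤ,
    (∀ b ∈ X.Ga, |e b| ≤ 2 ∧ (e b - x b) % 2 = 0) ∧
    |(∑ b ∈ X.Ga, e b) - ((2 * m + 1) ^ 2 : ℕ) * TT X| ≤ ((2 * m + 1) ^ 2 : ℕ) ∧
    (∀ i j, (∑ b ∈ grp X i j, max (e b) 0) ≤ (2 * r + 1) * X.u + 1) ∧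
    (∀ i j, (∑ b ∈ grp X i j, max (-(e b)) 0) ≤ (2 * r + 1) * X.u + 1) := by
  have h : ∀ p : ZMod (2 * m + 1) × ZMod (2 * m + 1), ∃ e : Fin k → ℤ,
      (∀ b ∈ grp X p.1 p.2, -2 ≤ e b ∧ e b ≤ 1 ∧ (e b - x b) % 2 = 0) ∧
      |(∑ b ∈ grp X p.1 p.2, e b) - TT X| ≤ 1 ∧
      (∑ b ∈ grp X p.1 p.2, max (e b) 0) ≤ (grp X p.1 p.2).card ∧
      (∑ b ∈ grp X p.1 p.2, max (-(e b)) 0) ≤ (grp X p.1 p.2).card + 1 := fun p =>
    hT (Fin k) (grp X p.1 p.2) x (TT X) (by rw [card_grp]; exact TT_ge X) (TT_le X)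
  choose e h1 h2 h3 h4 using h
  have hc : ∀ p : ZMod (2 * m + 1) × ZMod (2 * m + 1), ∀ b ∈ grp X p.1 p.2,
      e (X.gi b, X.gj b) b = e p b := by
    intro p b hb
    rw [grp, mem_filter] at hb
    rw [hb.2.1, hb.2.2]
  refine ⟨fun b => e (X.gi b, X.gj b) b, ?_, ?_, ?_, ?_⟩
  · intro b hb
    obtain ⟨a1, a2, a3⟩ := h1 (X.gi b, X.gj b) b (by rw [grp, mem_filter]; exact ⟨hb, rfl, rfl⟩)
    refine ⟨?_, a3⟩
    change |e (X.gi b, X.gj b) b| ≤ 2
    rw [abs_le]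
    constructor <;> linarith
  · rw [sum_grp X]
    rw [Finset.sum_congr rfl fun p _ => Finset.sum_congr rfl (hc p)]
    have hcard : (Fintype.card (ZMod (2 * m + 1) × ZMod (2 * m + 1))) = (2 * m + 1) ^ 2 := by
      rw [Fintype.card_prod, ZMod.card]; ring
    have e1 : (∑ p : ZMod (2 * m + 1) × ZMod (2 * m + 1), ∑ b ∈ grp X p.1 p.2, e p b) -
        ((2 * m + 1) ^ 2 : ℕ) * TT X =
        ∑ p : ZMod (2 * m + 1) × ZMod (2 * m + 1), ((∑ b ∈ grp X p.1 p.2, e p b) - TT X) := by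
      rw [Finset.sum_sub_distrib, sum_const, card_univ, hcard, nsmul_eq_mul]
    rw [e1]
    refine (Finset.abs_sum_le_sum_abs _ _).trans ?_
    refine (Finset.sum_le_sum fun p _ => h2 p).trans ?_
    rw [sum_const, card_univ, hcard, nsmul_eq_mul, mul_one]
  · intro i j
    refine le_trans (le_of_eq (Finset.sum_congr rfl fun b hb =>
      congrArg (fun z => max z 0) (hc (i, j) b hb))) ?_
    refine (h3 (i, j)).trans ?_
    rw [card_grp]
    push_cast
    linarith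
  · intro i j
    refine le_trans (le_of_eq (Finset.sum_congr rfl fun b hb =>
      congrArg (fun z => max (-z) 0) (hc (i, j) b hb))) ?_
    refine (h4 (i, j)).trans ?_
    rw [card_grp]
    push_cast
    linarith

/-! ### neighbours in atoms -/

/-- the typical number of neighbours in an atom, plus the error -/
theorem nbA_le (v : V) (A : Finset (Atom m r)) :
    ((nb G v ∩ cls U X.at' A).card : ℝ) ≤
      A.card * ((d : ℝ) / (2 * (2 * m + 1) * (2 * r + 1)) + X.dl * d) := by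
  have h1 : nb G v ∩ cls U X.at' A ⊆ A.biUnion (fun a => nb G v ∩ cls U X.at' {a}) := by
    intro w hw
    rw [mem_inter, mem_cls] at hw
    rw [mem_biUnion]
    refine ⟨X.at' w, hw.2.2, ?_⟩
    rw [mem_inter, mem_cls]
    exact ⟨hw.1, hw.2.1, mem_singleton_self _⟩
  have h2 := (card_le_card h1).trans card_biUnion_le
  calc ((nb G v ∩ cls U X.at' A).card : ℝ) ≤ ((∑ a ∈ A, (nb G v ∩ cls U X.at' {a}).card : ℕ) : ℝ) := by
        exact_mod_cast h2
    _ = ∑ a ∈ A, ((nb G v ∩ cls U X.at' {a}).card : ℝ) := by push_cast; rfl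
    _ ≤ ∑ a ∈ A, ((d : ℝ) / (2 * (2 * m + 1) * (2 * r + 1)) + X.dl * d) := by
        refine Finset.sum_le_sum fun a _ => ?_
        have h := X.degat v a
        have h' := (abs_le.1 h).2
        have e : (nb G v ∩ cls U X.at' {a}).card =
          (nb G v ∩ cls U (fun v => (X.side v, X.cell v, X.sub v)) {a}).card := rfl
        rw [e]
        linarith
    _ = _ := by rw [sum_const, nsmul_eq_mul]

/-- the atoms on one side with subcell in `S` -/
theorem card_atS (s : Bool) (S : Finset (ZMod (2 * r + 1))) :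
    ((univ : Finset (Atom m r)).filter (fun a => a.1 = s ∧ a.2.2 ∈ S)).card =
      (2 * m + 1) * S.card := by
  have h : ((univ : Finset (Atom m r)).filter (fun a => a.1 = s ∧ a.2.2 ∈ S)) =
      ({s} : Finset Bool) ×ˢ ((univ : Finset (ZMod (2 * m + 1))) ×ˢ S) := by
    ext ⟨a, b, c⟩
    rw [mem_filter, mem_product, mem_product, mem_singleton]
    constructor
    · rintro ⟨_, h1, h2⟩
      exact ⟨h1, mem_univ _, h2⟩
    · rintro ⟨h1, _, h2⟩
      exact ⟨mem_univ _, h1, h2⟩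
  rw [h, card_product, card_product, card_singleton, card_univ, ZMod.card, one_mul]

theorem Fs_card (b : Fin k) : (X.Fs b).card ≤ 3 := by
  have h1 : X.Fs b ⊆ ((univ.filter (fun s => b ∈ X.Pal s)) ∪
      (univ.filter (fun s => b ∈ X.Pal (2 * X.gs b - s)))) ∪ {X.gs b} := by
    intro s hs
    rw [Ctx.Fs, mem_filter] at hs
    rw [mem_union, mem_union, mem_filter, mem_filter, mem_singleton]
    rcases hs.2 with h | h | h
    · exact Or.inl (Or.inl ⟨mem_univ _, h⟩)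
    · exact Or.inl (Or.inr ⟨mem_univ _, h⟩)
    · exact Or.inr h.2
  have hd : ∀ s s', b ∈ X.Pal s → b ∈ X.Pal s' → s = s' := by
    intro s s' h h'
    by_contra hne
    exact Finset.disjoint_left.1 (X.Pald s s' hne) h h'
  have h2 : (univ.filter (fun s => b ∈ X.Pal s)).card ≤ 1 := by
    rw [card_le_one]
    intro s hs s' hs'
    rw [mem_filter] at hs hs'
    exact hd s s' hs.2 hs'.2
  have h3 : (univ.filter (fun s => b ∈ X.Pal (2 * X.gs b - s))).card ≤ 1 := by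
    rw [card_le_one]
    intro s hs s' hs'
    rw [mem_filter] at hs hs'
    have := hd _ _ hs.2 hs'.2
    linear_combination -this
  refine (card_le_card h1).trans ?_
  refine (card_union_le _ _).trans ?_
  rw [card_singleton]
  have := card_union_le (univ.filter (fun s => b ∈ X.Pal s))
      (univ.filter (fun s => b ∈ X.Pal (2 * X.gs b - s)))
  omega

theorem Bs_card (b : Fin k) : (X.Fs b ∪ X.Ds b).card ≤ 9 := by
  refine (card_union_le _ _).trans ?_
  have h1 := Fs_card X b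
  have h2 : (X.Ds b).card ≤ 6 := by
    unfold Ctx.Ds
    exact card_le_six
  omega

end A

end Pool.Agent.Work.MP_db9399_exp.helper46.INSAux
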