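import Mathlib
import Pool.Agent.Work.MP_db9399_exp_helper46.INSA

/-!
# Block INS of THEOREM EXP, part B: the pool graph
-/

set_option autoImplicit false
set_option linter.unusedSectionVars false

namespace Pool.Agent.Work.MP_db9399_exp.helper46.INSAux

open Finset Classical
open Pool.Agent.Work.MP_db9399_all (nb mis)
open Pool.Agent.Work.MP_db9399_qr (cov PEC ins sd PMat W0 imb ZQ Good)
open Pool.Agent.Work.MP_db9399_exp
open Pool.Agent.Work.MP_db9399_exp.helper38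

universe u

section B
variable {m r : ℕ} {V : Type u} [Fintype V] {k d : ℕ} {G : SimpleGraph V} {U : Finset V}
  {F : V → Finset (Fin k)} {X : Ctx m r k d G U F} {Bs : Fin k → Finset (ZMod (2 * r + 1))}
  {lam : ℝ} (P : Col X Bs lam)

/-- the inside edges without colour -/
def Rp : SimpleGraph V where
  Adj v w := X.R.Adj v w ∧ ∀ b, ¬ P.E b v w
  symm := ⟨fun _ _ h => ⟨h.1.symm, fun b hb => h.2 b (P.sym _ _ _ hb)⟩⟩
  loopless := ⟨fun _ h => X.R.loopless.irrefl _ h.1⟩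

theorem Rp_adj {v w : V} : (Rp P).Adj v w ↔ X.R.Adj v w ∧ ∀ b, ¬ P.E b v w := Iff.rfl

theorem Rp_U {v w : V} (h : (Rp P).Adj v w) : v ∉ U := by
  intro hv
  obtain ⟨b, hb⟩ := P.EU v hv w h.1
  exact h.2 b hb

/-- the colours of the coloured edges at `v` -/
noncomputable def cc (v : V) : Finset (Fin k) := X.Ga.filter (fun b => ∃ w, P.E b v w)

theorem deg_split (v : V) : (nb X.R v).card = (nb (Rp P) v).card + (cc P v).card := by
  have h1 : nb X.R v = nb (Rp P) v ∪ (cc P v).biUnion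
      (fun b => univ.filter (fun w => P.E b v w)) := by
    ext w
    rw [mem_union, mem_nb, mem_nb, mem_biUnion, Rp_adj]
    constructor
    · intro h
      by_cases hb : ∃ b, P.E b v w
      · obtain ⟨b, hb⟩ := hb
        right
        refine ⟨b, ?_, ?_⟩
        · rw [cc, mem_filter]
          exact ⟨(P.adj _ _ _ hb).2, w, hb⟩
        · rw [mem_filter]
          exact ⟨mem_univ _, hb⟩
      · left
        exact ⟨h, fun b hb' => hb ⟨b, hb'⟩⟩
    · rintro (h | ⟨b, _, hb⟩)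
      · exact h.1
      · rw [mem_filter] at hb
        exact (P.adj _ _ _ hb.2).1
  rw [h1, card_union_of_disjoint, card_biUnion]
  · congr 1
    rw [card_eq_sum_ones]
    refine Finset.sum_congr rfl fun b hb => ?_
    rw [cc, mem_filter] at hb
    obtain ⟨_, w, hw⟩ := hb
    rw [card_eq_one]
    refine ⟨w, ?_⟩
    ext x
    rw [mem_filter, mem_singleton]
    constructor
    · rintro ⟨_, hx⟩
      exact P.inj _ _ _ _ hx hw
    · rintro rfl
      exact ⟨mem_univ _, hw⟩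
  · intro b _ b' _ hne
    change Disjoint (univ.filter (fun w => P.E b v w)) (univ.filter (fun w => P.E b' v w))
    rw [Finset.disjoint_left]
    intro w hw hw'
    rw [mem_filter] at hw hw'
    exact hne (P.uniq _ _ _ _ hw.2 hw'.2)
  · rw [Finset.disjoint_left]
    intro w hw hw'
    rw [mem_nb, Rp_adj] at hw
    rw [mem_biUnion] at hw'
    obtain ⟨b, _, hb⟩ := hw'
    rw [mem_filter] at hb
    exact hw.2 b hb.2

/-- colours idle at `v` -/
theorem card_idl (v : V) : (X.Ga.filter (fun b => X.idl b v)).card ≤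
    (2 * m + 1) * ((2 * r + 1) * X.u) := by
  cases hs : X.side v
  · have h1 : X.Ga.filter (fun b => X.idl b v) ⊆
        (univ : Finset (ZMod (2 * m + 1))).biUnion (fun i => grp X i (X.cell v)) := by
      intro b hb
      rw [mem_filter] at hb
      rw [mem_biUnion]
      refine ⟨X.gi b, mem_univ _, ?_⟩
      rw [grp, mem_filter]
      exact ⟨hb.1, rfl, hb.2.2.2 hs⟩
    refine (card_le_card h1).trans (card_biUnion_le.trans ?_)
    rw [Finset.sum_congr rfl fun i _ => card_grp X i (X.cell v), sum_const, card_univ, ZMod.card,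
      smul_eq_mul]
  · have h1 : X.Ga.filter (fun b => X.idl b v) ⊆
        (univ : Finset (ZMod (2 * m + 1))).biUnion (fun j => grp X (X.cell v) j) := by
      intro b hb
      rw [mem_filter] at hb
      rw [mem_biUnion]
      refine ⟨X.gj b, mem_univ _, ?_⟩
      rw [grp, mem_filter]
      exact ⟨hb.1, hb.2.2.1 hs, rfl⟩
    refine (card_le_card h1).trans (card_biUnion_le.trans ?_)
    rw [Finset.sum_congr rfl fun j _ => card_grp X (X.cell v) j, sum_const, card_univ, ZMod.card,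
      smul_eq_mul]

theorem cc_ge (v : V) (hv : v ∉ U) :
    2 * (m : ℝ) * (2 * m + 1) * ((2 * r + 1) * X.u) - lam * d / (2 * r + 1) ≤
      ((cc P v).card : ℝ) := by
  have h1 : X.Ga ⊆ (X.Ga.filter (fun b => X.idl b v)) ∪ (cc P v ∪
      (X.Ga.filter (fun b => ¬ X.idl b v ∧ ∀ w, ¬ P.E b v w))) := by
    intro b hb
    rw [mem_union, mem_union, mem_filter, mem_filter, cc, mem_filter]
    by_cases h1 : X.idl b v
    · exact Or.inl ⟨hb, h1⟩
    · by_cases h2 : ∃ w, P.E b v w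
      · exact Or.inr (Or.inl ⟨hb, h2⟩)
      · exact Or.inr (Or.inr ⟨hb, h1, fun w hw => h2 ⟨w, hw⟩⟩)
  have h2 := (card_le_card h1).trans ((card_union_le _ _).trans
    (Nat.add_le_add_left (card_union_le _ _) _))
  have h3 := card_idl (X := X) v
  have h4 := P.hcnt v hv
  rw [card_Ga X] at h2
  have h5 : (2 * m + 1) ^ 2 * ((2 * r + 1) * X.u) ≤ (2 * m + 1) * ((2 * r + 1) * X.u) +
      ((cc P v).card + (X.Ga.filter (fun b => ¬ X.idl b v ∧ ∀ w, ¬ P.E b v w)).card) :=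
    h2.trans (Nat.add_le_add_right h3 _)
  have h6 : ((2 * (m : ℝ) + 1) ^ 2 * ((2 * r + 1) * X.u)) ≤
      (2 * m + 1) * ((2 * r + 1) * X.u) + (((cc P v).card : ℝ) +
        ((X.Ga.filter (fun b => ¬ X.idl b v ∧ ∀ w, ¬ P.E b v w)).card : ℝ)) := by
    exact_mod_cast h5
  have h7 : ((X.Ga.filter (fun b => ¬ X.idl b v ∧ ∀ w, ¬ P.E b v w)).card : ℝ) ≤
      lam * d / (2 * r + 1) := h4
  nlinarith

theorem degR_le (v : V) : ((nb X.R v).card : ℝ) ≤
    d / 2 + (2 * m + 1) * (2 * r + 1) * (X.dl * d) + 1 := by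
  have h1 : nb X.R v ⊆ (nb G v ∩ cls U X.at'
      ((univ : Finset (Atom m r)).filter (fun a => a.1 = X.side v ∧ a.2.2 ∈ univ))) ∪
      (univ.filter (fun u => u ∈ U ∧ G.Adj v u ∧ X.side u = X.side v)) := by
    intro w hw
    rw [mem_nb] at hw
    have hw1 : G.Adj v w := hw.1
    have hw2 : X.side v = X.side w := hw.2
    rw [mem_union, mem_inter, mem_cls, mem_filter, mem_filter, mem_nb]
    by_cases hU : w ∈ U
    · exact Or.inr ⟨mem_univ _, hU, hw1, hw2.symm⟩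
    · exact Or.inl ⟨hw1, hU, mem_univ _, hw2.symm, mem_univ _⟩
  have h2 := (card_le_card h1).trans (card_union_le _ _)
  have h3 := nbA_le X v ((univ : Finset (Atom m r)).filter
    (fun a => a.1 = X.side v ∧ a.2.2 ∈ (univ : Finset (ZMod (2 * r + 1)))))
  have h4 := card_atS (m := m) (r := r) (X.side v) univ
  rw [card_univ, ZMod.card] at h4
  rw [h4] at h3
  have h5 := X.U1 v (X.side v)
  have h6 : ((nb X.R v).card : ℝ) ≤ ((nb G v ∩ cls U X.at'
      ((univ : Finset (Atom m r)).filter (fun a => a.1 = X.side v ∧ a.2.2 ∈ univ))).card : ℝ) +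
      ((univ.filter (fun u => u ∈ U ∧ G.Adj v u ∧ X.side u = X.side v)).card : ℝ) := by
    exact_mod_cast h2
  have h7 : ((univ.filter (fun u => u ∈ U ∧ G.Adj v u ∧ X.side u = X.side v)).card : ℝ) ≤ 1 := by
    exact_mod_cast h5
  have h8 : (((2 * m + 1) * (2 * r + 1) : ℕ) : ℝ) *
      ((d : ℝ) / (2 * (2 * m + 1) * (2 * r + 1)) + X.dl * d) =
      d / 2 + (2 * m + 1) * (2 * r + 1) * (X.dl * d) := by
    push_cast
    field_simp
  rw [h8] at h3
  linarith

theorem num3 (M1 R1 d lam dl g : ℝ) (a1 : 1 ≤ M1) (a2 : 1 ≤ R1) (hd0 : 0 ≤ d)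
    (hR : 100 * M1 ^ 7 ≤ R1) (hd : 10 ^ 6 * M1 ^ 20 * R1 ^ 3 ≤ d)
    (hdl : dl * (10 ^ 6 * M1 ^ 12 * R1 ^ 2) ≤ g ^ 2) (hdl0 : 0 < dl) (hg0 : 0 < g)
    (hg1 : g ≤ 1 / 100) (hlam : lam ≤ 8) :
    lam * d / R1 ≤ 8 / 100 * (d / M1 ^ 7) ∧ M1 * R1 * (dl * d) ≤ 1 / 100 * (d / M1 ^ 7) ∧
      1 ≤ 1 / 100 * (d / M1 ^ 7) := by
  have hM0 : 0 < M1 := by linarith
  have hR0 : 0 < R1 := by linarith
  have hq : 0 ≤ d / M1 ^ 7 := by positivity
  refine ⟨?_, ?_, ?_⟩
  · rw [div_le_iff₀ hR0]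
    have c0 : 8 / 100 * (d / M1 ^ 7) * (100 * M1 ^ 7) = 8 * d := by field_simp
    have c1 : 8 / 100 * (d / M1 ^ 7) * (100 * M1 ^ 7) ≤ 8 / 100 * (d / M1 ^ 7) * R1 := by
      apply mul_le_mul_of_nonneg_left hR
      positivity
    have c2 : lam * d ≤ 8 * d := mul_le_mul_of_nonneg_right hlam hd0
    linarith
  · have c1 : dl * (M1 ^ 8 * R1) * 100 ≤ 1 := by
      have e1 : M1 ^ 8 ≤ M1 ^ 12 := pow_le_pow_right₀ a1 (by norm_num)
      have e2 : R1 ≤ R1 ^ 2 := by nlinarith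
      have e3 : M1 ^ 8 * R1 ≤ M1 ^ 12 * R1 ^ 2 := mul_le_mul e1 e2 (by positivity) (by positivity)
      have c3 : g ^ 2 ≤ 1 := by nlinarith
      have c4 : dl * (M1 ^ 8 * R1) ≤ dl * (M1 ^ 12 * R1 ^ 2) :=
        mul_le_mul_of_nonneg_left e3 hdl0.le
      have c5 : 0 ≤ dl * (M1 ^ 12 * R1 ^ 2) := by positivity
      have c6 : dl * (10 ^ 6 * M1 ^ 12 * R1 ^ 2) = 10 ^ 6 * (dl * (M1 ^ 12 * R1 ^ 2)) := by ring
      rw [c6] at hdl
      linarith
    have e1 : M1 * R1 * (dl * d) = dl * (M1 ^ 8 * R1) * 100 * (1 / 100 * (d / M1 ^ 7)) := by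
      field_simp
    rw [e1]
    have h0 : 0 ≤ 1 / 100 * (d / M1 ^ 7) := by positivity
    exact mul_le_of_le_one_left h0 c1
  · have e1 : M1 ^ 7 ≤ M1 ^ 20 := pow_le_pow_right₀ a1 (by norm_num)
    have e2 : (1 : ℝ) ≤ R1 ^ 3 := one_le_pow₀ a2
    have e3 : M1 ^ 20 ≤ M1 ^ 20 * R1 ^ 3 := le_mul_of_one_le_right (by positivity) e2
    have e4 : 0 ≤ M1 ^ 20 * R1 ^ 3 := by positivity
    have c1 : 100 * M1 ^ 7 ≤ d := by linarith
    have e5 : 1 / 100 * (d / M1 ^ 7) = d / (100 * M1 ^ 7) := by field_simp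
    rw [e5, le_div_iff₀ (by positivity)]
    linarith

/-- the degrees in the pool graph -/
theorem degP_le (hlam : lam ≤ 8) (v : V) :
    ((nb (Rp P) v).card : ℝ) ≤ (d : ℝ) / (2 * m + 1) ^ 7 := by
  by_cases hv : v ∈ U
  · have : nb (Rp P) v = ∅ := by
      rw [Finset.eq_empty_iff_forall_notMem]
      intro w hw
      rw [mem_nb] at hw
      exact Rp_U P hw hv
    rw [this]
    simp only [card_empty, Nat.cast_zero]
    positivity
  · have h1 := deg_split P v
    have h2 := cc_ge P v hv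
    have h3 := degR_le (X := X) v
    have h4 : ((nb X.R v).card : ℝ) = (nb (Rp P) v).card + (cc P v).card := by exact_mod_cast h1
    have h5 := X.ulo
    have hM := num_M X
    have hR := X.rbig
    have hd := num_d X
    have hdl := X.dlsm
    have hdl0 := X.dl0
    have hg0 := X.g0
    have hg1 := X.g1
    set M1 : ℝ := 2 * (m : ℝ) + 1 with hM1
    set R1 : ℝ := 2 * (r : ℝ) + 1 with hR1
    have a1 : (1 : ℝ) ≤ M1 := le_trans (by norm_num) hM
    have a2 : (1 : ℝ) ≤ R1 := by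
      have : (1 : ℝ) ≤ M1 ^ 7 := one_le_pow₀ a1
      linarith
    have hd0 : (0 : ℝ) ≤ d := Nat.cast_nonneg _
    obtain ⟨b1, b2, b3⟩ := num3 M1 R1 d lam X.dl X.g a1 a2 hd0 hR hd hdl hdl0 hg0 hg1 hlam
    have b4 : d / 2 - 1 / 2 * (d / M1 ^ 7) ≤ 2 * (m : ℝ) * M1 * (R1 * X.u) := by
      have e1 : (1 - 1 / M1 ^ 7) * (d : ℝ) = d - d / M1 ^ 7 := by ring
      have e2 : 2 * M1 * R1 * (2 * (m : ℝ) * X.u) = 2 * (2 * (m : ℝ) * M1 * (R1 * X.u)) := by ring
      rw [e1, e2] at h5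
      linarith
    linarith

end B

end Pool.Agent.Work.MP_db9399_exp.helper46.INSAux
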