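import Mathlib
import Pool.Agent.Work.MP_db9399_exp_helper46.INSB

/-!
# Block INS of THEOREM EXP, part C: imbalances
-/

set_option autoImplicit false
set_option linter.unusedSectionVars false

namespace Pool.Agent.Work.MP_db9399_exp.helper46.INSAux

open Finset Classical
open Pool.Agent.Work.MP_db9399_all (nb mis)
open Pool.Agent.Work.MP_db9399_qr (cov PEC ins sd PMat W0 imb ZQ Good)
open Pool.Agent.Work.MP_db9399_exp
open Pool.Agent.Work.MP_db9399_exp.helper38

universe u

section C
variable {m r : ℕ} {V : Type u} [Fintype V] {k d : ℕ} {G : SimpleGraph V} {U : Finset V}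
  {F : V → Finset (Fin k)} (X : Ctx m r k d G U F) {Bs : Fin k → Finset (ZMod (2 * r + 1))}
  {lam : ℝ}

theorem deg_cross (v : V) (s : Bool) (hv : X.side v = s) :
    (nb G v).card = (nb X.R v).card + ((sd X.side (!s)).filter (fun w => G.Adj v w)).card := by
  rw [← card_union_of_disjoint]
  · congr 1
    ext w
    rw [mem_union, mem_nb, mem_nb, mem_filter, mem_sd]
    constructor
    · intro h
      by_cases hs : X.side w = s
      · exact Or.inl ⟨h, hv.trans hs.symm⟩
      · refine Or.inr ⟨?_, h⟩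
        cases s <;> cases hw : X.side w <;> simp_all
    · rintro (h | h)
      · exact h.1
      · exact h.2
  · rw [Finset.disjoint_left]
    intro w hw hw'
    rw [mem_nb] at hw
    rw [mem_filter, mem_sd] at hw'
    have h2 : X.side v = X.side w := hw.2
    rw [hv, hw'.1] at h2
    cases s <;> simp at h2

theorem deg_diff :
    (∑ v ∈ sd X.side true, ((nb G v).card : ℤ)) - ∑ v ∈ sd X.side false, ((nb G v).card : ℤ) =
    (∑ v ∈ sd X.side true, ((nb X.R v).card : ℤ)) - ∑ v ∈ sd X.side false, ((nb X.R v).card : ℤ)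
    := by
  have h1 : ∑ v ∈ sd X.side true, ((nb G v).card : ℤ) =
      ∑ v ∈ sd X.side true, ((nb X.R v).card : ℤ) +
      ∑ v ∈ sd X.side true, (((sd X.side false).filter (fun w => G.Adj v w)).card : ℤ) := by
    rw [← sum_add_distrib]
    refine sum_congr rfl fun v hv => ?_
    rw [deg_cross X v true (mem_sd.1 hv)]
    push_cast
    rfl
  have h2 : ∑ v ∈ sd X.side false, ((nb G v).card : ℤ) =
      ∑ v ∈ sd X.side false, ((nb X.R v).card : ℤ) +
      ∑ v ∈ sd X.side false, (((sd X.side true).filter (fun w => G.Adj v w)).card : ℤ) := by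
    rw [← sum_add_distrib]
    refine sum_congr rfl fun v hv => ?_
    rw [deg_cross X v false (mem_sd.1 hv)]
    push_cast
    rfl
  have h3 := sum_card_bipartiteAbove_eq_sum_card_bipartiteBelow (s := sd X.side true)
    (t := sd X.side false) (fun v w => G.Adj v w)
  unfold bipartiteAbove bipartiteBelow at h3
  have h4 : ∑ v ∈ sd X.side true, (((sd X.side false).filter (fun w => G.Adj v w)).card : ℤ) =
      ∑ v ∈ sd X.side false, (((sd X.side true).filter (fun w => G.Adj v w)).card : ℤ) := by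
    have h5 : ∀ v, ((sd X.side true).filter (fun w => G.Adj w v)) =
        ((sd X.side true).filter (fun w => G.Adj v w)) := by
      intro v
      apply filter_congr
      intro w _
      exact G.adj_comm _ _
    simp only [h5] at h3
    exact_mod_cast h3
  rw [h1, h2, h4]
  ring

/-- ordinary vertices of colour `b` on the side `s` -/
noncomputable def sA (s : Bool) (b : Fin k) : ℕ :=
  ((sd X.side s).filter (fun v => v ∉ U ∧ X.c v = b)).card

/-- vertices forbidding `b` on the side `s` -/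
noncomputable def fB (s : Bool) (b : Fin k) : ℕ :=
  ((sd X.side s).filter (fun v => b ∈ F v)).card

theorem imb_four (C : V → Prop) (Cs : Bool → Finset V)
    (hCs : ∀ s v, v ∈ Cs s ↔ v ∈ sd X.side s ∧ C v) (b : Fin k)
    (hAC : ∀ v, v ∉ U → X.c v = b → ¬ C v)
    (hBC : ∀ v, b ∈ F v → ¬ C v) (W : Finset V)
    (hW : ∀ v, v ∈ W ↔ ¬ (v ∉ U ∧ X.c v = b) ∧ b ∉ F v ∧ ¬ C v) :
    imb X.side W = (X.p : ℤ) - ((sA X true b : ℤ) - sA X false b) -
      ((fB X true b : ℤ) - fB X false b) - (((Cs true).card : ℤ) - (Cs false).card) := by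
  have key : ∀ s, (W ∩ sd X.side s).card + sA X s b + fB X s b +
      (Cs s).card = (sd X.side s).card := by
    intro s
    unfold sA fB
    refine four (sd X.side s) _ _ _ _ (fun v => v ∉ U ∧ X.c v = b) (fun v => b ∈ F v) C
      ?_ ?_ ?_ (hCs s) ?_ ?_ ?_
    · intro v
      rw [mem_inter, hW]
      tauto
    · intro v
      rw [mem_filter]
    · intro v
      rw [mem_filter]
    · intro v _ h1 h2
      rw [X.F0 v h1.1] at h2
      exact absurd h2 (notMem_empty _)
    · exact fun v _ h1 => hAC v h1.1 h1.2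
    · exact fun v _ h1 => hBC v h1
  have e1 := key true
  have e2 := key false
  have e3 := X.sides
  unfold imb
  omega

theorem imbC_eq (P : Col X Bs lam) (b : Fin k) : imbC X P b =
    (X.p : ℤ) - ((sA X true b : ℤ) - sA X false b) -
      ((fB X true b : ℤ) - fB X false b) -
      ((((sd X.side true).filter (fun v => ∃ w, P.E b v w)).card : ℤ) -
        ((sd X.side false).filter (fun v => ∃ w, P.E b v w)).card) := by
  unfold imbC
  refine imb_four X (fun v => ∃ w, P.E b v w)
    (fun s => (sd X.side s).filter (fun v => ∃ w, P.E b v w)) ?_ b ?_ ?_ _ ?_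
  · intro s v
    rw [mem_filter]
  · rintro v hv hc ⟨w, hw⟩
    exact P.Ec b v w hv hw hc
  · rintro v hv ⟨w, hw⟩
    exact P.EF b v w hw hv
  · intro v
    rw [mem_filter]
    constructor
    · rintro ⟨_, h1, h2, h3⟩
      exact ⟨h1, h2, fun ⟨w, hw⟩ => h3 w hw⟩
    · rintro ⟨h1, h2, h3⟩
      exact ⟨mem_univ _, h1, h2, fun w hw => h3 ⟨w, hw⟩⟩

theorem imbW_eq (t : V → V → Fin k) (htF : ∀ v w, X.R.Adj v w → t v w ∉ F v)
    (htc : ∀ v w, v ∉ U → X.R.Adj v w → t v w ≠ X.c v) (b : Fin k) :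
    imb X.side (W0 X.R U F X.c t b) =
    (X.p : ℤ) - ((sA X true b : ℤ) - sA X false b) -
      ((fB X true b : ℤ) - fB X false b) -
      (((cov X.R t b ∩ sd X.side true).card : ℤ) -
        (cov X.R t b ∩ sd X.side false).card) := by
  refine imb_four X (fun v => v ∈ cov X.R t b)
    (fun s => cov X.R t b ∩ sd X.side s) ?_ b ?_ ?_ _ ?_
  · intro s v
    rw [mem_inter]
    tauto
  · intro v hv hc h
    obtain ⟨w, hw, hb⟩ := mem_cov.1 h
    exact htc v w hv hw (hb.trans hc.symm)
  · intro v hv h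
    obtain ⟨w, hw, hb⟩ := mem_cov.1 h
    exact htF v w hw (hb ▸ hv)
  · intro v
    rw [W0, mem_filter]
    exact ⟨fun h => h.2, fun h => ⟨mem_univ _, h⟩⟩

theorem sum_fB_le (B : Finset (Fin k)) :
    ∑ b ∈ B, (fB X true b + fB X false b) ≤ 2 * U.card := by
  have h1 : ∀ b, fB X true b + fB X false b = (U.filter (fun v => b ∈ F v)).card := by
    intro b
    unfold fB
    rw [← card_union_of_disjoint]
    · congr 1
      ext v
      simp only [mem_union, mem_filter, mem_sd]
      constructor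
      · intro h
        have hb : b ∈ F v := by tauto
        refine ⟨?_, hb⟩
        by_contra hv
        rw [X.F0 v hv] at hb
        exact absurd hb (notMem_empty _)
      · rintro ⟨_, h⟩
        cases X.side v
        · exact Or.inr ⟨rfl, h⟩
        · exact Or.inl ⟨rfl, h⟩
    · rw [Finset.disjoint_left]
      intro v hv hv'
      rw [mem_filter, mem_sd] at hv hv'
      rw [hv.1] at hv'
      exact absurd hv'.1 (by simp)
  rw [sum_congr rfl (fun b _ => h1 b)]
  have h2 := sum_card_bipartiteAbove_eq_sum_card_bipartiteBelow (s := B) (t := U)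
      (fun b v => b ∈ F v)
  unfold bipartiteAbove bipartiteBelow at h2
  rw [h2]
  calc ∑ v ∈ U, (B.filter (fun b => b ∈ F v)).card ≤ ∑ v ∈ U, 2 := by
        apply sum_le_sum
        intro v hv
        refine (card_le_card ?_).trans (X.F2 v hv)
        intro b hb
        exact (mem_filter.1 hb).2
    _ = 2 * U.card := by rw [sum_const, smul_eq_mul, mul_comm]

/-- ordinary vertices on the side `s` with subcell in `S` -/
noncomputable def oc (s : Bool) (S : Finset (ZMod (2 * r + 1))) : ℕ :=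
  ((sd X.side s).filter (fun v => v ∉ U ∧ X.sub v ∈ S)).card

theorem oc_eq (s : Bool) (S : Finset (ZMod (2 * r + 1))) : oc X s S =
    ∑ p ∈ (univ : Finset (ZMod (2 * m + 1))) ×ˢ S, (cls U X.at' {((s, p.1, p.2) : Atom m r)}).card := by
  unfold oc
  rw [card_eq_sum_card_fiberwise (f := fun v => (X.cell v, X.sub v))
    (t := (univ : Finset (ZMod (2 * m + 1))) ×ˢ S)]
  · refine sum_congr rfl fun p hp => ?_
    congr 1
    ext v
    rw [mem_filter, mem_filter, mem_sd, mem_cls, mem_singleton]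
    rw [mem_product] at hp
    constructor
    · rintro ⟨⟨h1, h2, _⟩, h4⟩
      refine ⟨h2, ?_⟩
      have e1 : X.cell v = p.1 := congrArg Prod.fst h4
      have e2 : X.sub v = p.2 := congrArg Prod.snd h4
      change (X.side v, X.cell v, X.sub v) = (s, p.1, p.2)
      rw [h1, e1, e2]
    · rintro ⟨h1, h2⟩
      have h2' : (X.side v, X.cell v, X.sub v) = (s, p.1, p.2) := h2
      rw [Prod.mk.injEq, Prod.mk.injEq] at h2'
      obtain ⟨e1, e2, e3⟩ := h2'
      refine ⟨⟨e1, h1, ?_⟩, ?_⟩
      · rw [e3]; exact hp.2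
      · rw [e2, e3]
  · intro v hv
    rw [mem_coe, mem_filter] at hv
    rw [mem_coe, mem_product]
    exact ⟨mem_univ _, hv.2.2⟩

theorem oc_univ (s : Bool) :
    oc X s univ + (univ.filter (fun u => u ∈ U ∧ X.side u = s)).card = (sd X.side s).card := by
  unfold oc
  rw [← card_union_of_disjoint]
  · congr 1
    ext v
    rw [mem_union, mem_filter, mem_filter, mem_sd]
    constructor
    · rintro (h | h)
      · exact h.1
      · exact h.2.2
    · intro h
      by_cases hU : v ∈ U
      · exact Or.inr ⟨mem_univ _, hU, h⟩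
      · exact Or.inl ⟨h, hU, mem_univ _⟩
  · rw [Finset.disjoint_left]
    intro v hv hv'
    rw [mem_filter] at hv hv'
    exact hv.2.1 hv'.2.1

theorem oc_diff (S : Finset (ZMod (2 * r + 1))) :
    (oc X false S : ℤ) ≤ oc X true S ∧ (oc X true S : ℤ) - oc X false S ≤ X.p := by
  have h1 := oc_univ X true
  have h2 := oc_univ X false
  have h3 := X.Ueq
  have h4 := X.sides
  have h5 : (oc X true univ : ℤ) - oc X false univ = X.p := by omega
  have hle : ∀ p : ZMod (2 * m + 1) × ZMod (2 * r + 1),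
      ((cls U X.at' {((false, p.1, p.2) : Atom m r)}).card : ℤ) ≤
      ((cls U X.at' {((true, p.1, p.2) : Atom m r)}).card : ℤ) := by
    intro p
    exact_mod_cast X.atle p.1 p.2
  constructor
  · rw [oc_eq, oc_eq]
    push_cast
    exact sum_le_sum fun p _ => hle p
  · rw [← h5, oc_eq, oc_eq, oc_eq, oc_eq]
    push_cast
    rw [← sum_sub_distrib, ← sum_sub_distrib]
    apply sum_le_sum_of_subset_of_nonneg
    · exact product_subset_product_right (subset_univ _)
    · intro p _ _
      have := hle p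
      linarith

theorem sum_sA (s : Bool) : ∑ b ∈ X.Ga, sA X s b = oc X s X.GS := by
  unfold oc
  rw [card_eq_sum_card_fiberwise (f := X.c) (t := X.Ga)]
  · refine sum_congr rfl fun b hb => ?_
    unfold sA
    congr 1
    ext v
    rw [mem_filter, mem_filter, mem_filter]
    constructor
    · rintro ⟨h1, h2, h3⟩
      refine ⟨⟨h1, h2, ?_⟩, h3⟩
      by_contra hs
      have h4 := X.cP v h2
      rw [h3] at h4
      exact Finset.disjoint_left.1 (X.PalL _ hs) h4 (mem_union_left _ hb)
    · rintro ⟨⟨h1, h2, _⟩, h4⟩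
      exact ⟨h1, h2, h4⟩
  · intro v hv
    rw [mem_coe, mem_filter] at hv
    rw [mem_coe]
    exact X.PalG _ hv.2.2 (X.cP v hv.2.1)

theorem sum_cc (P : Col X Bs lam) (s : Bool) : ∑ v ∈ sd X.side s, (cc P v).card =
    ∑ b ∈ X.Ga, ((sd X.side s).filter (fun v => ∃ w, P.E b v w)).card := by
  have h3 := sum_card_bipartiteAbove_eq_sum_card_bipartiteBelow (s := sd X.side s)
    (t := X.Ga) (fun v b => ∃ w, P.E b v w)
  unfold bipartiteAbove bipartiteBelow at h3
  unfold cc
  exact h3

/-- the degree sums of the pool graph on the two sides are almost equal -/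
theorem pool_diff (P : Col X Bs lam) (e : Fin k → ℤ) (he : ∀ b ∈ X.Ga, imbC X P b = e b)
    (hs : |(∑ b ∈ X.Ga, e b) - ((2 * m + 1) ^ 2 : ℕ) * TT X| ≤ ((2 * m + 1) ^ 2 : ℕ)) :
    |(((∑ v ∈ sd X.side true, ((nb (Rp P) v).card : ℤ)) -
      ∑ v ∈ sd X.side false, ((nb (Rp P) v).card : ℤ) : ℤ) : ℝ)| ≤
      X.dl * Fintype.card V + 1 + 2 * U.card + 2 * (2 * (m : ℝ) + 1) ^ 2 := by
  have h1 : ∀ s, ∑ v ∈ sd X.side s, ((nb (Rp P) v).card : ℤ) =
      ∑ v ∈ sd X.side s, ((nb X.R v).card : ℤ) - ∑ v ∈ sd X.side s, ((cc P v).card : ℤ) := by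
    intro s
    rw [← sum_sub_distrib]
    refine sum_congr rfl fun v _ => ?_
    rw [deg_split P v]
    push_cast
    ring
  have h2 : ∀ s, ∑ v ∈ sd X.side s, ((cc P v).card : ℤ) =
      ∑ b ∈ X.Ga, (((sd X.side s).filter (fun v => ∃ w, P.E b v w)).card : ℤ) := by
    intro s
    exact_mod_cast sum_cc X P s
  have h3 : ∑ v ∈ sd X.side true, ((cc P v).card : ℤ) - ∑ v ∈ sd X.side false, ((cc P v).card : ℤ)
      = (X.p : ℤ) * X.Ga.card - ((oc X true X.GS : ℤ) - oc X false X.GS) -
        (∑ b ∈ X.Ga, ((fB X true b : ℤ) - fB X false b)) - ∑ b ∈ X.Ga, e b := by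
    rw [h2, h2, ← sum_sub_distrib]
    have e1 : ∀ b ∈ X.Ga, ((((sd X.side true).filter (fun v => ∃ w, P.E b v w)).card : ℤ) -
        ((sd X.side false).filter (fun v => ∃ w, P.E b v w)).card) =
        (X.p : ℤ) - ((sA X true b : ℤ) - sA X false b) -
          ((fB X true b : ℤ) - fB X false b) - e b := by
      intro b hb
      rw [← he b hb, imbC_eq]
      ring
    rw [sum_congr rfl e1, sum_sub_distrib, sum_sub_distrib, sum_sub_distrib, sum_const,
      nsmul_eq_mul, sum_sub_distrib (f := fun b => (sA X true b : ℤ))]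
    have e2 : (∑ b ∈ X.Ga, (sA X true b : ℤ)) = oc X true X.GS := by exact_mod_cast sum_sA X true
    have e3 : (∑ b ∈ X.Ga, (sA X false b : ℤ)) = oc X false X.GS := by exact_mod_cast sum_sA X false
    rw [e2, e3]
    ring
  have h4 := deg_diff X
  have h5 := oc_diff X X.GS
  have h6 : |∑ b ∈ X.Ga, ((fB X true b : ℤ) - fB X false b)| ≤ 2 * U.card := by
    refine (abs_sum_le_sum_abs _ _).trans ?_
    have e1 : ∑ b ∈ X.Ga, |(fB X true b : ℤ) - fB X false b| ≤
        ∑ b ∈ X.Ga, ((fB X true b : ℤ) + fB X false b) := by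
      refine sum_le_sum fun b _ => ?_
      rw [abs_le]
      constructor <;> omega
    refine e1.trans ?_
    exact_mod_cast sum_fB_le X X.Ga
  have h7 := TT_sum X
  have h8 : (X.p : ℤ) ≤ 1 := by exact_mod_cast X.p1
  -- main identity
  have h9 : (∑ v ∈ sd X.side true, ((nb (Rp P) v).card : ℤ)) -
      ∑ v ∈ sd X.side false, ((nb (Rp P) v).card : ℤ) =
      ((∑ v ∈ sd X.side true, ((nb G v).card : ℤ)) - (∑ v ∈ sd X.side false, ((nb G v).card : ℤ)) -
        (X.p : ℤ) * d) +
      (((X.p : ℤ) * ((d : ℤ) - X.Ga.card) + ((2 * m + 1) ^ 2 : ℕ) * TT X) +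
       ((∑ b ∈ X.Ga, e b) - ((2 * m + 1) ^ 2 : ℕ) * TT X) +
       ((oc X true X.GS : ℤ) - oc X false X.GS) +
       (∑ b ∈ X.Ga, ((fB X true b : ℤ) - fB X false b))) := by
    rw [h1, h1]
    linarith
  have h10 : |((X.p : ℤ) * ((d : ℤ) - X.Ga.card) + ((2 * m + 1) ^ 2 : ℕ) * TT X) +
       ((∑ b ∈ X.Ga, e b) - ((2 * m + 1) ^ 2 : ℕ) * TT X) +
       ((oc X true X.GS : ℤ) - oc X false X.GS) +
       (∑ b ∈ X.Ga, ((fB X true b : ℤ) - fB X false b))| ≤
       2 * ((2 * m + 1) ^ 2 : ℕ) + 1 + 2 * U.card := by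
    rw [abs_le] at h6 h7 hs ⊢
    constructor <;> linarith [h5.1, h5.2, h6.1, h6.2, h7.1, h7.2, hs.1, hs.2]
  rw [h9]
  have h11 := X.degsum
  have h12 : |(((∑ v ∈ sd X.side true, ((nb G v).card : ℤ)) -
      (∑ v ∈ sd X.side false, ((nb G v).card : ℤ)) - (X.p : ℤ) * d : ℤ) : ℝ)| ≤
      X.dl * Fintype.card V := by
    push_cast
    exact h11
  have h13 : |(((X.p : ℤ) * ((d : ℤ) - X.Ga.card) + ((2 * m + 1) ^ 2 : ℕ) * TT X +
       ((∑ b ∈ X.Ga, e b) - ((2 * m + 1) ^ 2 : ℕ) * TT X) +
       ((oc X true X.GS : ℤ) - oc X false X.GS) +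
       (∑ b ∈ X.Ga, ((fB X true b : ℤ) - fB X false b)) : ℤ) : ℝ)| ≤
       2 * (2 * (m : ℝ) + 1) ^ 2 + 1 + 2 * U.card := by
    rw [← Int.cast_abs]
    have h14 := (Int.cast_le (R := ℝ)).2 h10
    refine h14.trans (le_of_eq ?_)
    push_cast
    ring
  rw [Int.cast_add]
  refine (abs_add_le _ _).trans ?_
  linarith

end C

end Pool.Agent.Work.MP_db9399_exp.helper46.INSAux
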