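import Mathlib
import Pool.Agent.Work.MP_db9399_exp_helper46.INSC

/-!
# Block INS of THEOREM EXP: the inside colouring
-/

set_option autoImplicit false
set_option linter.unusedSectionVars false

namespace Pool.Agent.Work.MP_db9399_exp.helper46

open Finset Classical
open Pool.Agent.Work.MP_db9399_all (nb mis)
open Pool.Agent.Work.MP_db9399_qr (cov PEC ins sd PMat W0 imb ZQ Good)
open Pool.Agent.Work.MP_db9399_exp
open Pool.Agent.Work.MP_db9399_exp.helper38
open INSAux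

universe u

namespace INSAux

theorem num_hloc (M1 R1 d dl g : ℝ) (a1 : 1 ≤ M1) (a2 : 1 ≤ R1) (hd0 : 0 ≤ d)
    (hd : 10 ^ 6 * M1 ^ 20 * R1 ^ 3 ≤ d)
    (hdl : dl * (10 ^ 6 * M1 ^ 12 * R1 ^ 2) ≤ g ^ 2) (hdl0 : 0 < dl) (hg0 : 0 < g)
    (hg1 : g ≤ 1 / 100) :
    9 * M1 * (d / (2 * M1 * R1) + dl * d) + M1 * R1 ≤ 8 * d / R1 := by
  have hM0 : 0 < M1 := by linarith
  have hR0 : 0 < R1 := by linarith
  have e1 : 9 * M1 * (d / (2 * M1 * R1) + dl * d) = 9 / 2 * (d / R1) + 9 * (M1 * dl * R1) * (d / R1)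
      := by field_simp
  have hq : 0 ≤ d / R1 := by positivity
  have c1 : 9 * (M1 * dl * R1) ≤ 1 := by
    have f1 : M1 ≤ M1 ^ 12 := by
      calc M1 = M1 ^ 1 := (pow_one _).symm
        _ ≤ M1 ^ 12 := pow_le_pow_right₀ a1 (by norm_num)
    have f2 : R1 ≤ R1 ^ 2 := by nlinarith
    have f3 : M1 * R1 ≤ M1 ^ 12 * R1 ^ 2 := mul_le_mul f1 f2 (by positivity) (by positivity)
    have f4 : dl * (M1 * R1) ≤ dl * (M1 ^ 12 * R1 ^ 2) := mul_le_mul_of_nonneg_left f3 hdl0.le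
    have f5 : 0 ≤ dl * (M1 ^ 12 * R1 ^ 2) := by positivity
    have f6 : dl * (10 ^ 6 * M1 ^ 12 * R1 ^ 2) = 10 ^ 6 * (dl * (M1 ^ 12 * R1 ^ 2)) := by ring
    have f7 : g ^ 2 ≤ 1 := by nlinarith
    rw [f6] at hdl
    linarith
  have c2 : 9 * (M1 * dl * R1) * (d / R1) ≤ 1 * (d / R1) := mul_le_mul_of_nonneg_right c1 hq
  have c3 : M1 * R1 ≤ d / R1 := by
    rw [le_div_iff₀ hR0]
    have f1 : M1 ≤ M1 ^ 20 := by
      calc M1 = M1 ^ 1 := (pow_one _).symm
        _ ≤ M1 ^ 20 := pow_le_pow_right₀ a1 (by norm_num)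
    have f2 : R1 ^ 2 ≤ R1 ^ 3 := pow_le_pow_right₀ a2 (by norm_num)
    have f3 : M1 * R1 ^ 2 ≤ M1 ^ 20 * R1 ^ 3 := mul_le_mul f1 f2 (by positivity) (by positivity)
    have f4 : 0 ≤ M1 ^ 20 * R1 ^ 3 := by positivity
    have f5 : M1 * R1 * R1 = M1 * R1 ^ 2 := by ring
    rw [f5]
    linarith
  have e2 : 8 * d / R1 = 8 * (d / R1) := by ring
  rw [e1, e2]
  linarith

theorem num_imbP (M1 R1 d dl g n u pe : ℝ) (a1 : 1 ≤ M1) (a2 : 1 ≤ R1) (hd0 : 0 < d)
    (hd : 10 ^ 6 * M1 ^ 20 * R1 ^ 3 ≤ d) (hmb : 10 ^ 5 ≤ g ^ 2 * M1)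
    (hdl : dl * (10 ^ 6 * M1 ^ 12 * R1 ^ 2) ≤ g ^ 2) (hdl0 : 0 < dl) (hg0 : 0 < g)
    (hg1 : g ≤ 1 / 100) (hn : 2 * d ≤ n) (hu0 : 0 ≤ u) (hu : u * d ≤ 3 * n)
    (hpe : pe ≤ 5 * d / M1 ^ 3) :
    pe + 2 * u + (dl * n + 1 + 2 * u + 2 * M1 ^ 2) ≤ g / (100 * M1) * n := by
  have hM0 : 0 < M1 := by linarith
  have hR0 : 0 < R1 := by linarith
  have hn0 : 0 < n := by linarith
  -- everything in units of w = g n / M1
  set w : ℝ := g * n / M1 with hw
  have hw0 : 0 < w := by positivity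
  have e1 : g / (100 * M1) * n = w / 100 := by rw [hw]; field_simp
  have hg2 : g ^ 2 * M1 ≤ g * M1 := by
    apply mul_le_mul_of_nonneg_right _ hM0.le
    nlinarith
  have hgM : 10 ^ 5 ≤ g * M1 := hmb.trans hg2
  -- pe
  have c1 : 5 * d / M1 ^ 3 ≤ w / 1000 := by
    rw [hw, div_div, div_le_div_iff₀ (by positivity) (by positivity)]
    have f1 : 5 * d * (M1 * 1000) ≤ 5 / 2 * n * (M1 * 1000) := by
      apply mul_le_mul_of_nonneg_right _ (by positivity)
      linarith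
    have f2 : (5 / 2 * 1000 : ℝ) * (n * M1) ≤ (g * M1 * M1) * (n * M1) := by
      apply mul_le_mul_of_nonneg_right _ (by positivity)
      nlinarith
    calc 5 * d * (M1 * 1000) ≤ 5 / 2 * n * (M1 * 1000) := f1
      _ = (5 / 2 * 1000 : ℝ) * (n * M1) := by ring
      _ ≤ (g * M1 * M1) * (n * M1) := f2
      _ = g * n * M1 ^ 3 := by ring
  -- dl n
  have c2 : dl * n ≤ w / 1000 := by
    rw [hw, div_div, le_div_iff₀ (by positivity)]
    have f1 : M1 ≤ M1 ^ 12 := by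
      calc M1 = M1 ^ 1 := (pow_one _).symm
        _ ≤ M1 ^ 12 := pow_le_pow_right₀ a1 (by norm_num)
    have f2 : (1 : ℝ) ≤ R1 ^ 2 := one_le_pow₀ a2
    have f3 : M1 ≤ M1 ^ 12 * R1 ^ 2 := f1.trans (le_mul_of_one_le_right (by positivity) f2)
    have f4 : dl * M1 ≤ dl * (M1 ^ 12 * R1 ^ 2) := mul_le_mul_of_nonneg_left f3 hdl0.le
    have f5 : 0 ≤ dl * (M1 ^ 12 * R1 ^ 2) := by positivity
    have f6 : dl * (10 ^ 6 * M1 ^ 12 * R1 ^ 2) = 10 ^ 6 * (dl * (M1 ^ 12 * R1 ^ 2)) := by ring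
    have f7 : g ^ 2 ≤ g := by nlinarith
    rw [f6] at hdl
    have f8 : dl * M1 * 1000 ≤ g := by linarith
    calc dl * n * (M1 * 1000) = (dl * M1 * 1000) * n := by ring
      _ ≤ g * n := mul_le_mul_of_nonneg_right f8 hn0.le
  -- d is huge: w ≥ ...
  have hdM : 10 ^ 6 * M1 ^ 4 ≤ d := by
    have f1 : M1 ^ 4 ≤ M1 ^ 20 := pow_le_pow_right₀ a1 (by norm_num)
    have f2 : (1 : ℝ) ≤ R1 ^ 3 := one_le_pow₀ a2
    have f3 : M1 ^ 20 ≤ M1 ^ 20 * R1 ^ 3 := le_mul_of_one_le_right (by positivity) f2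
    linarith
  have c3 : u ≤ w / 1000 := by
    rw [hw, div_div, le_div_iff₀ (by positivity)]
    have f1 : u * (10 ^ 6 * M1 ^ 4) ≤ 3 * n := by
      refine le_trans ?_ hu
      exact mul_le_mul_of_nonneg_left hdM hu0
    have f2 : (1 : ℝ) ≤ M1 ^ 2 := one_le_pow₀ a1
    -- u M1 ≤ 3 n / (10^6 M1^3) , g ≥ 10^5 / M1
    have f3 : u * M1 * 1000 * M1 ≤ g * M1 * n := by
      have f4 : u * (M1 ^ 2 * 1000) ≤ u * (10 ^ 6 * M1 ^ 4) := by
        apply mul_le_mul_of_nonneg_left _ hu0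
        have : M1 ^ 4 = M1 ^ 2 * M1 ^ 2 := by ring
        rw [this]
        nlinarith
      have f5 : 10 ^ 5 * n ≤ g * M1 * n := mul_le_mul_of_nonneg_right hgM hn0.le
      have f6 : u * M1 * 1000 * M1 = u * (M1 ^ 2 * 1000) := by ring
      rw [f6]
      linarith
    have f7 : (u * (M1 * 1000)) * M1 ≤ (g * n) * M1 := by
      calc (u * (M1 * 1000)) * M1 = u * M1 * 1000 * M1 := by ring
        _ ≤ g * M1 * n := f3
        _ = (g * n) * M1 := by ring
    exact le_of_mul_le_mul_right f7 hM0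
  have c4 : 1 + 2 * M1 ^ 2 ≤ w / 1000 := by
    rw [hw, div_div, le_div_iff₀ (by positivity)]
    have f2 : (1 : ℝ) ≤ M1 ^ 2 := one_le_pow₀ a1
    have f1 : (1 + 2 * M1 ^ 2) * (M1 * 1000) * M1 ≤ 3000 * M1 ^ 4 := by
      have : (1 + 2 * M1 ^ 2) ≤ 3 * M1 ^ 2 := by linarith
      calc (1 + 2 * M1 ^ 2) * (M1 * 1000) * M1 = (1 + 2 * M1 ^ 2) * (1000 * M1 ^ 2) := by ring
        _ ≤ (3 * M1 ^ 2) * (1000 * M1 ^ 2) := mul_le_mul_of_nonneg_right this (by positivity)
        _ = 3000 * M1 ^ 4 := by ring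
    have f5 : 10 ^ 5 * n ≤ g * M1 * n := mul_le_mul_of_nonneg_right hgM hn0.le
    have f6 : 0 ≤ M1 ^ 4 := by positivity
    have f7 : ((1 + 2 * M1 ^ 2) * (M1 * 1000)) * M1 ≤ (g * n) * M1 := by
      calc ((1 + 2 * M1 ^ 2) * (M1 * 1000)) * M1 ≤ 3000 * M1 ^ 4 := f1
        _ ≤ 10 ^ 5 * n := by linarith
        _ ≤ g * M1 * n := f5
        _ = (g * n) * M1 := by ring
    exact le_of_mul_le_mul_right f7 hM0
  rw [e1]
  linarith

end INSAux

theorem stmt_INS_of (hC : Stmt_CUT.{u}) (hT : Stmt_TGT) (hP : Stmt_POOLX.{u}) :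
    Stmt_INS.{u} := by
  intro m r V _ k d G U F X P hFs
  obtain ⟨e, he1, he2, he3, he4⟩ := targets X hT (imbC X P)
  obtain ⟨P', hP'⟩ := hC X P e hFs he1
  have hM := num_M X
  have hM1 : (1 : ℝ) ≤ 2 * (m : ℝ) + 1 := le_trans (by norm_num) hM
  have hR1 : (1 : ℝ) ≤ 2 * (r : ℝ) + 1 := by
    have : (0 : ℝ) ≤ r := Nat.cast_nonneg _
    linarith
  have hd0 : (0 : ℝ) ≤ d := Nat.cast_nonneg _
  -- the pool
  obtain ⟨t', ht1, ht2, ht3⟩ := hP (ZMod (2 * m + 1)) (Rp P') X.side X.cell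
    ⌊(d : ℝ) / (2 * m + 1) ^ 7⌋₊ (4 * ⌊(d : ℝ) / (2 * m + 1) ^ 7⌋₊ + 1) (Fin k) X.Pe X.ty
    (fun v w h => h.1.2) (fun v => Nat.le_floor (degP_le P' le_rfl v))
    (by
      intro τ
      have h1 := X.Pem τ
      have h2 : ((⌊(d : ℝ) / (2 * m + 1) ^ 7⌋₊ : ℕ) : ℝ) ≤ (d : ℝ) / (2 * m + 1) ^ 7 :=
        Nat.floor_le (by positivity)
      have h3 : (4 : ℝ) * ⌊(d : ℝ) / (2 * m + 1) ^ 7⌋₊ + 1 ≤
          ((X.Pe.filter (fun b => X.ty b = τ)).card : ℝ) := by
        have e1 : 4 * (d : ℝ) / (2 * m + 1) ^ 7 = 4 * ((d : ℝ) / (2 * m + 1) ^ 7) := by ring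
        rw [e1] at h1
        linarith
      have h4 : 4 * ⌊(d : ℝ) / (2 * m + 1) ^ 7⌋₊ + 1 ≤
          (X.Pe.filter (fun b => X.ty b = τ)).card := by exact_mod_cast h3
      convert h4)
    le_rfl
  -- the colouring
  obtain ⟨t, htE, htN⟩ : ∃ t : V → V → Fin k, (∀ b v w, P'.E b v w → t v w = b) ∧
      (∀ v w, (∀ b, ¬ P'.E b v w) → t v w = t' v w) := by
    refine ⟨fun v w => if h : ∃ b, P'.E b v w then Classical.choose h else t' v w, ?_, ?_⟩
    · intro b v w h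
      have hex : ∃ b, P'.E b v w := ⟨b, h⟩
      change (if h : ∃ b, P'.E b v w then Classical.choose h else t' v w) = b
      rw [dif_pos hex]
      exact P'.uniq _ _ _ _ (Classical.choose_spec hex) h
    · intro v w h
      change (if h : ∃ b, P'.E b v w then Classical.choose h else t' v w) = t' v w
      rw [dif_neg (not_exists.2 h)]
  have hdis : ∀ b, b ∈ X.Ga → b ∉ X.Pe := fun b h h' => Finset.disjoint_left.1 X.disj h h'
  have hcase : ∀ v w, X.R.Adj v w → (P'.E (t v w) v w ∧ t v w ∈ X.Ga) ∨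
      ((Rp P').Adj v w ∧ t v w = t' v w ∧ t v w ∈ X.Pe) := by
    intro v w h
    by_cases hex : ∃ b, P'.E b v w
    · obtain ⟨b, hb⟩ := hex
      left
      rw [htE b v w hb]
      exact ⟨hb, (P'.adj _ _ _ hb).2⟩
    · right
      have h1 : (Rp P').Adj v w := ⟨h, fun b hb => hex ⟨b, hb⟩⟩
      have h2 := htN v w h1.2
      exact ⟨h1, h2, h2 ▸ (ht2 v w h1).1⟩
  have hGa : ∀ b ∈ X.Ga, ∀ v w, (X.R.Adj v w ∧ t v w = b) ↔ P'.E b v w := by
    intro b hb v w
    constructor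
    · rintro ⟨h1, h2⟩
      rcases hcase v w h1 with h | h
      · rw [← h2]; exact h.1
      · exact absurd (h2 ▸ h.2.2) (hdis b hb)
    · intro h
      exact ⟨(P'.adj _ _ _ h).1, htE b v w h⟩
  have hPe : ∀ b ∈ X.Pe, ∀ v w, (X.R.Adj v w ∧ t v w = b) ↔ ((Rp P').Adj v w ∧ t' v w = b) := by
    intro b hb v w
    constructor
    · rintro ⟨h1, h2⟩
      rcases hcase v w h1 with h | h
      · exact absurd hb (hdis b (h2 ▸ h.2))
      · exact ⟨h.1, h.2.1.symm.trans h2⟩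
    · rintro ⟨h1, h2⟩
      exact ⟨h1.1, (htN v w h1.2).trans h2⟩
  have hcov : ∀ b ∈ X.Ga, ∀ v, v ∈ cov X.R t b ↔ ∃ w, P'.E b v w := by
    intro b hb v
    rw [mem_cov]
    exact exists_congr fun w => hGa b hb v w
  have hcovP : ∀ b ∈ X.Pe, cov X.R t b = cov (Rp P') t' b := by
    intro b hb
    ext v
    rw [mem_cov, mem_cov]
    exact exists_congr fun w => hPe b hb v w
  have hUP : ∀ v w, (Rp P').Adj v w → v ∉ U := fun v w h => Rp_U P' h
  have hcPe : ∀ v, v ∉ U → X.c v ∉ X.Pe := by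
    intro v hv h
    have h1 := X.cP v hv
    by_cases hs : X.sub v ∈ X.GS
    · exact hdis _ (X.PalG _ hs h1) h
    · exact Finset.disjoint_left.1 (X.PalL _ hs) h1 (mem_union_right _ h)
  have htF : ∀ v w, X.R.Adj v w → t v w ∉ F v := by
    intro v w h
    rcases hcase v w h with h' | h'
    · exact P'.EF _ _ _ h'.1
    · rw [X.F0 v (hUP v w h'.1)]
      exact notMem_empty _
  have htc : ∀ v w, v ∉ U → X.R.Adj v w → t v w ≠ X.c v := by
    intro v w hv h
    rcases hcase v w h with h' | h'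
    · exact fun he => P'.Ec _ _ _ hv h'.1 he.symm
    · intro he
      exact hcPe v hv (he ▸ h'.2.2)
  have himb : ∀ b ∈ X.Ga, imb X.side (W0 X.R U F X.c t b) = e b := by
    intro b hb
    rw [← hP' b hb]
    unfold imbC
    congr 1
    ext v
    rw [W0, mem_filter, mem_filter, hcov b hb, not_exists]
  refine ⟨{
    t := t
    pec := ?_
    tF := htF
    tc := htc
    tcol := ?_
    icov := ?_
    iloc := ?_
    hloc := ?_
    hcnt := ?_
    ucnt := ?_
    imbp := ?_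
    imbn := ?_
    imb2 := ?_
    imbP := ?_ }⟩
  · constructor
    · intro v w
      by_cases hex : ∃ b, P'.E b v w
      · obtain ⟨b, hb⟩ := hex
        rw [htE b v w hb, htE b w v (P'.sym _ _ _ hb)]
      · rw [htN v w (not_exists.1 hex), htN w v fun b hb => hex ⟨b, P'.sym _ _ _ hb⟩]
        exact ht1.1 v w
    · intro v w hw w' hw' heq
      rw [mem_coe, mem_nb] at hw hw'
      rcases hcase v w hw with h | h
      · have h2 := (hGa (t v w) h.2 v w').1 ⟨hw', heq.symm⟩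
        exact P'.inj _ _ _ _ h.1 h2
      · have h2 := (hPe (t v w) h.2.2 v w').1 ⟨hw', heq.symm⟩
        apply ht1.2 v
        · rw [mem_coe, mem_nb]; exact h.1
        · rw [mem_coe, mem_nb]; exact h2.1
        · rw [h2.2, ← h.2.1]
  · intro v w h
    rcases hcase v w h with h' | h'
    · exact Or.inl h'.2
    · right
      have h2 := ht2 v w h'.1
      rw [← h'.2.1] at h2
      exact ⟨h'.2.2, hUP v w h'.1, h2.2⟩
  · intro v w h h1 h2
    exact P'.Ei _ _ _ h2 ((hGa _ h1 v w).1 ⟨h, rfl⟩)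
  · intro b hb y
    refine le_trans ?_ (P'.iloc b hb y)
    rw [Nat.cast_le]
    apply card_le_card
    intro v hv
    rw [mem_filter] at hv ⊢
    exact ⟨hv.1, hv.2.1, (hcov b hb v).1 hv.2.2⟩
  · -- hloc
    intro b hb y s
    have h1 : (nb G y).filter (fun v => v ∉ U ∧ X.side v = s ∧ ¬ X.idl b v ∧
        v ∉ cov X.R t b) ⊆ (nb G y ∩ cls U X.at' ((univ : Finset (Atom m r)).filter
          (fun a => a.1 = s ∧ a.2.2 ∈ X.Fs b ∪ X.Ds b))) ∪
        (((univ : Finset (Atom m r)).filter (fun a => a.1 = s ∧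
          a.2.2 ∈ (univ : Finset (ZMod (2 * r + 1))))).filter
          (fun a => ¬ X.idA b a ∧ a.2.2 ∉ X.Fs b ∪ X.Ds b)).biUnion
          (fun a => (cls U X.at' {a}).filter (fun v => ∀ w, ¬ P'.E b v w)) := by
      intro v hv
      rw [mem_filter] at hv
      obtain ⟨hv1, hv2, hv3, hv4, hv5⟩ := hv
      rw [mem_union, mem_inter, mem_cls, mem_biUnion]
      by_cases hs : X.sub v ∈ X.Fs b ∪ X.Ds b
      · left
        refine ⟨hv1, hv2, ?_⟩
        rw [mem_filter]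
        exact ⟨mem_univ _, hv3, hs⟩
      · right
        refine ⟨X.at' v, ?_, ?_⟩
        · rw [mem_filter, mem_filter]
          exact ⟨⟨mem_univ _, hv3, mem_univ _⟩, fun h => hv4 ⟨hv2, h⟩, hs⟩
        · rw [mem_filter, mem_cls]
          refine ⟨⟨hv2, mem_singleton_self _⟩, ?_⟩
          intro w hw
          exact hv5 ((hcov b hb v).2 ⟨w, hw⟩)
    have h2 := (card_le_card h1).trans (card_union_le _ _)
    have h3 := nbA_le X y ((univ : Finset (Atom m r)).filter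
          (fun a => a.1 = s ∧ a.2.2 ∈ X.Fs b ∪ X.Ds b))
    have h4 := card_atS (m := m) (r := r) s (X.Fs b ∪ X.Ds b)
    have h5 := Bs_card X b
    have h6 : (((((univ : Finset (Atom m r)).filter (fun a => a.1 = s ∧
          a.2.2 ∈ (univ : Finset (ZMod (2 * r + 1))))).filter
          (fun a => ¬ X.idA b a ∧ a.2.2 ∉ X.Fs b ∪ X.Ds b)).biUnion
          (fun a => (cls U X.at' {a}).filter (fun v => ∀ w, ¬ P'.E b v w))).card : ℝ) ≤
          (2 * m + 1) * (2 * r + 1) := by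
      have h7 : ((((univ : Finset (Atom m r)).filter (fun a => a.1 = s ∧
          a.2.2 ∈ (univ : Finset (ZMod (2 * r + 1))))).filter
          (fun a => ¬ X.idA b a ∧ a.2.2 ∉ X.Fs b ∪ X.Ds b)).biUnion
          (fun a => (cls U X.at' {a}).filter (fun v => ∀ w, ¬ P'.E b v w))).card ≤
          (2 * m + 1) * (2 * r + 1) := by
        refine card_biUnion_le.trans ?_
        refine (Finset.sum_le_sum (g := fun _ => 1) fun a ha => ?_).trans ?_
        · rw [mem_filter] at ha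
          exact P'.part b hb a ha.2.1 ha.2.2
        · rw [← card_eq_sum_ones]
          refine (card_le_card (filter_subset _ _)).trans ?_
          have h8 := card_atS (m := m) (r := r) s univ
          rw [card_univ, ZMod.card] at h8
          exact le_of_eq h8
      exact_mod_cast h7
    have h9 : ((((univ : Finset (Atom m r)).filter
          (fun a => a.1 = s ∧ a.2.2 ∈ X.Fs b ∪ X.Ds b)).card : ℕ) : ℝ) ≤ 9 * (2 * m + 1) := by
      rw [h4]
      push_cast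
      have h10 : ((X.Fs b ∪ X.Ds b).card : ℝ) ≤ 9 := by exact_mod_cast h5
      nlinarith
    have h10 : 0 ≤ (d : ℝ) / (2 * (2 * m + 1) * (2 * r + 1)) + X.dl * d := by
      have := X.dl0
      positivity
    have h11 := mul_le_mul_of_nonneg_right h9 h10
    have h12 := num_hloc (2 * (m : ℝ) + 1) (2 * (r : ℝ) + 1) d X.dl X.g hM1 hR1 hd0 (num_d X)
      X.dlsm X.dl0 X.g0 X.g1
    have h13 : (((nb G y).filter (fun v => v ∉ U ∧ X.side v = s ∧ ¬ X.idl b v ∧
        v ∉ cov X.R t b)).card : ℝ) ≤ ((nb G y ∩ cls U X.at' ((univ : Finset (Atom m r)).filter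
          (fun a => a.1 = s ∧ a.2.2 ∈ X.Fs b ∪ X.Ds b))).card : ℝ) +
        (((((univ : Finset (Atom m r)).filter (fun a => a.1 = s ∧
          a.2.2 ∈ (univ : Finset (ZMod (2 * r + 1))))).filter
          (fun a => ¬ X.idA b a ∧ a.2.2 ∉ X.Fs b ∪ X.Ds b)).biUnion
          (fun a => (cls U X.at' {a}).filter (fun v => ∀ w, ¬ P'.E b v w))).card : ℝ) := by
      exact_mod_cast h2
    linarith
  · -- hcnt
    intro v hv
    refine le_trans ?_ (P'.hcnt v hv)
    rw [Nat.cast_le]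
    apply card_le_card
    intro b hb
    rw [mem_filter] at hb ⊢
    exact ⟨hb.1, hb.2.1, fun w hw => hb.2.2 ((hcov b hb.1 v).2 ⟨w, hw⟩)⟩
  · -- ucnt
    intro u hu j
    refine le_trans ?_ (P'.ucnt u hu j)
    rw [Nat.cast_le]
    apply card_le_card
    intro b hb
    rw [mem_filter] at hb ⊢
    exact ⟨hb.1, hb.2.1, hb.2.2.1, fun w hw => hb.2.2.2 ((hcov b hb.1 u).2 ⟨w, hw⟩)⟩
  · -- imbp
    intro i j
    refine le_trans (le_of_eq ?_) (he3 i j)
    unfold grp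
    refine sum_congr rfl fun b hb => ?_
    rw [himb b (mem_filter.1 hb).1]
  · intro i j
    refine le_trans (le_of_eq ?_) (he4 i j)
    unfold grp
    refine sum_congr rfl fun b hb => ?_
    rw [himb b (mem_filter.1 hb).1]
  · intro b hb
    rw [himb b hb]
    exact (he1 b hb).1
  · -- imbP
    have h1 : ∀ b ∈ X.Pe, |((imb X.side (W0 X.R U F X.c t b) : ℤ) : ℝ)| ≤
        1 + ((fB X true b + fB X false b : ℕ) : ℝ) +
        ((|((cov (Rp P') t' b ∩ sd X.side true).card : ℤ) -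
          ((cov (Rp P') t' b ∩ sd X.side false).card : ℤ)| : ℤ) : ℝ) := by
      intro b hb
      have hA : ∀ s, sA X s b = 0 := by
        intro s
        unfold sA
        rw [card_eq_zero, filter_eq_empty_iff]
        rintro v _ ⟨h1, h2⟩
        exact hcPe v h1 (h2 ▸ hb)
      rw [imbW_eq X t htF htc b, hA, hA, hcovP b hb, ← Int.cast_abs]
      have h2 : |(X.p : ℤ) - (((0 : ℕ) : ℤ) - ((0 : ℕ) : ℤ)) - ((fB X true b : ℤ) - fB X false b) -
          (((cov (Rp P') t' b ∩ sd X.side true).card : ℤ) -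
            ((cov (Rp P') t' b ∩ sd X.side false).card : ℤ))| ≤
          1 + ((fB X true b + fB X false b : ℕ) : ℤ) +
          |((cov (Rp P') t' b ∩ sd X.side true).card : ℤ) -
            ((cov (Rp P') t' b ∩ sd X.side false).card : ℤ)| := by
        have hp1 := X.p1
        have a1 := le_abs_self (((cov (Rp P') t' b ∩ sd X.side true).card : ℤ) -
            ((cov (Rp P') t' b ∩ sd X.side false).card : ℤ))
        have a2 := neg_abs_le (((cov (Rp P') t' b ∩ sd X.side true).card : ℤ) -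
            ((cov (Rp P') t' b ∩ sd X.side false).card : ℤ))
        rw [abs_le]
        push_cast
        constructor <;> omega
      have h3 := (Int.cast_le (R := ℝ)).2 h2
      refine h3.trans (le_of_eq ?_)
      push_cast
      ring
    refine (sum_le_sum h1).trans ?_
    rw [sum_add_distrib, sum_add_distrib, sum_const, nsmul_eq_mul, mul_one]
    have h2 : (∑ b ∈ X.Pe, ((fB X true b + fB X false b : ℕ) : ℝ)) ≤ 2 * U.card := by
      exact_mod_cast sum_fB_le X X.Pe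
    have h3 : (∑ b ∈ X.Pe, ((|((cov (Rp P') t' b ∩ sd X.side true).card : ℤ) -
          ((cov (Rp P') t' b ∩ sd X.side false).card : ℤ)| : ℤ) : ℝ)) ≤
        X.dl * Fintype.card V + 1 + 2 * U.card + 2 * (2 * (m : ℝ) + 1) ^ 2 := by
      have h4 := pool_diff X P' e hP' he2
      refine le_trans ?_ h4
      rw [← Int.cast_abs, ← Int.cast_sum, Int.cast_le]
      exact ht3
    have h5 := num_imbP (2 * (m : ℝ) + 1) (2 * (r : ℝ) + 1) d X.dl X.g (Fintype.card V) U.card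
      X.Pe.card hM1 hR1 (by
        have := num_d X
        have : (0 : ℝ) < 10 ^ 6 * (2 * (m : ℝ) + 1) ^ 20 * (2 * (r : ℝ) + 1) ^ 3 := by positivity
        linarith) (num_d X) X.mbig X.dlsm X.dl0 X.g0 X.g1 (num_dn X) (Nat.cast_nonneg _)
      X.Ucard X.Pecard
    linarith

end Pool.Agent.Work.MP_db9399_exp.helper46
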