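import Mathlib
import Pool.Agent.Work.MP_db9399_exp.Interface

/-!
# Block STR of THEOREM EXP: the structured inside edges
-/

set_option autoImplicit false

namespace Pool.Agent.Work.MP_db9399_exp.helper46

open Finset Classical
open Pool.Agent.Work.MP_db9399_all (nb mis)
open Pool.Agent.Work.MP_db9399_qr (cov PEC ins sd PMat W0 imb ZQ Good)
open Pool.Agent.Work.MP_db9399_exp

universe u

/-! ## Halving in `ZMod (2 * m + 1)` -/

theorem half_mul (m : ℕ) : ((m : ZMod (2 * m + 1)) + 1) * 2 = 1 := by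
  have h : ((2 * m + 1 : ℕ) : ZMod (2 * m + 1)) = 0 := ZMod.natCast_self _
  have h2 : ((2 * m + 1 : ℕ) : ZMod (2 * m + 1)) = 2 * (m : ZMod (2 * m + 1)) + 1 := by
    push_cast; ring
  rw [h2] at h
  linear_combination h

theorem two_cancel {m : ℕ} {x y : ZMod (2 * m + 1)} (h : 2 * x = 2 * y) : x = y := by
  have h1 := half_mul m
  calc x = (((m : ZMod (2 * m + 1)) + 1) * 2) * x := by rw [h1, one_mul]
    _ = ((m : ZMod (2 * m + 1)) + 1) * (2 * x) := by ring
    _ = ((m : ZMod (2 * m + 1)) + 1) * (2 * y) := by rw [h]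
    _ = (((m : ZMod (2 * m + 1)) + 1) * 2) * y := by ring
    _ = y := by rw [h1, one_mul]

section part1
variable {m r : ℕ} {V : Type u} [Fintype V] {k d : ℕ} {G : SimpleGraph V} {U : Finset V}
  {F : V → Finset (Fin k)} (X : Ctx m r k d G U F)

/-- the idle cell of the colour `b` on the side `s` -/
def hh (b : Fin k) (s : Bool) : ZMod (2 * m + 1) := bif s then X.gi b else X.gj b

theorem idA_iff (b : Fin k) (a : Atom m r) : X.idA b a ↔ hh X b a.1 = a.2.1 := by
  unfold Ctx.idA hh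
  rcases a with ⟨s, a, v⟩
  cases s <;> simp

/-- the partner atom -/
noncomputable def pt (b : Fin k) (a : Atom m r) : Atom m r :=
  (a.1, (if X.gi b = X.gj b then a.2.1 else 2 * hh X b a.1 - a.2.1), 2 * X.gs b - a.2.2)

theorem pt_fst (b : Fin k) (a : Atom m r) : (pt X b a).1 = a.1 := rfl

theorem pt_sub (b : Fin k) (a : Atom m r) : (pt X b a).2.2 = 2 * X.gs b - a.2.2 := rfl

theorem pt_cell (b : Fin k) (a : Atom m r) :
    (pt X b a).2.1 = if X.gi b = X.gj b then a.2.1 else 2 * hh X b a.1 - a.2.1 := rfl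

theorem pt_pt (b : Fin k) (a : Atom m r) : pt X b (pt X b a) = a := by
  rcases a with ⟨s, a, v⟩
  by_cases h : X.gi b = X.gj b
  · simp [pt, h]
  · simp [pt, h]

theorem idA_pt (b : Fin k) (a : Atom m r) : X.idA b (pt X b a) ↔ X.idA b a := by
  rw [idA_iff, idA_iff, pt_fst, pt_cell]
  by_cases h : X.gi b = X.gj b
  · simp [h]
  · simp only [h, if_false]
    constructor
    · intro h1
      linear_combination -h1
    · intro h1
      linear_combination -h1

theorem pt_eq {b : Fin k} {a : Atom m r} (hi : ¬ X.idA b a) (h : pt X b a = a) :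
    X.gi b = X.gj b ∧ a.2.2 = X.gs b := by
  have h1 : (pt X b a).2.1 = a.2.1 := by rw [h]
  have h2 : (pt X b a).2.2 = a.2.2 := by rw [h]
  rw [pt_cell] at h1
  rw [pt_sub] at h2
  constructor
  · by_contra hne
    rw [if_neg hne] at h1
    apply hi
    rw [idA_iff]
    exact two_cancel (by linear_combination h1)
  · exact two_cancel (by linear_combination -h2)

/-- the colours matching the atoms `a` and `a'` -/
noncomputable def Sc (a a' : Atom m r) : Finset (Fin k) :=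
  X.Ga.filter (fun b => ¬ X.idA b a ∧ pt X b a = a')

theorem Sc_symm (a a' : Atom m r) : Sc X a a' = Sc X a' a := by
  ext b
  simp only [Sc, mem_filter]
  constructor
  · rintro ⟨h1, h2, h3⟩
    refine ⟨h1, ?_, ?_⟩
    · rw [← h3, idA_pt]; exact h2
    · rw [← h3, pt_pt]
  · rintro ⟨h1, h2, h3⟩
    refine ⟨h1, ?_, ?_⟩
    · rw [← h3, idA_pt]; exact h2
    · rw [← h3, pt_pt]

theorem Sc_card (a a' : Atom m r) : (Sc X a a').card ≤ 2 * m * X.u := by
  have key : ∀ z : ZMod (2 * m + 1), (∀ b ∈ Sc X a a', hh X b (!a.1) ≠ z) →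
      (∀ b ∈ Sc X a a', ∀ b' ∈ Sc X a a', hh X b (!a.1) = hh X b' (!a.1) →
        hh X b a.1 = hh X b' a.1) → (Sc X a a').card ≤ 2 * m * X.u := by
    intro z hz hinj
    have h1 : (Sc X a a').card ≤ ((univ.erase z) ×ˢ (range X.u)).card := by
      apply Finset.card_le_card_of_injOn (fun b => (hh X b (!a.1), X.gk b))
      · intro b hb
        have hb' : b ∈ Sc X a a' := hb
        simp only [coe_product, Set.mem_prod, mem_coe, mem_erase, mem_univ, and_true, mem_range]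
        refine ⟨hz b hb', X.glt b ?_⟩
        exact (mem_filter.mp hb').1
      · intro b hb b' hb' h
        have hb1 : b ∈ Sc X a a' := hb
        have hb1' : b' ∈ Sc X a a' := hb'
        simp only [Prod.mk.injEq] at h
        have h2 := hinj b hb1 b' hb1' h.1
        have hbm := mem_filter.mp hb1
        have hbm' := mem_filter.mp hb1'
        have hs : X.gs b = X.gs b' := by
          have e1 : (pt X b a).2.2 = (pt X b' a).2.2 := by rw [hbm.2.2, hbm'.2.2]
          rw [pt_sub, pt_sub] at e1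
          exact two_cancel (by linear_combination e1)
        have hij : X.gi b = X.gi b' ∧ X.gj b = X.gj b' := by
          rcases ha : a.1 with _ | _
          · rw [ha] at h2 h
            exact ⟨by simpa [hh] using h.1, by simpa [hh] using h2⟩
          · rw [ha] at h2 h
            exact ⟨by simpa [hh] using h2, by simpa [hh] using h.1⟩
        exact X.ginj b hbm.1 b' hbm'.1 hij.1 hij.2 hs h.2
    have h2 : ((univ.erase z : Finset (ZMod (2 * m + 1))) ×ˢ (range X.u)).card = 2 * m * X.u := by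
      rw [card_product, card_erase_of_mem (mem_univ _), card_univ, ZMod.card, card_range]
      rfl
    rw [h2] at h1
    exact h1
  by_cases hc : a'.2.1 = a.2.1
  · -- same cell
    have hgg : ∀ b ∈ Sc X a a', X.gi b = X.gj b := by
      intro b hb
      have hbm := mem_filter.mp hb
      by_contra hn
      have e1 : (pt X b a).2.1 = a'.2.1 := by rw [hbm.2.2]
      rw [pt_cell, if_neg hn, hc] at e1
      apply hbm.2.1
      rw [idA_iff]
      exact two_cancel (by linear_combination e1)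
    have hhs : ∀ b ∈ Sc X a a', hh X b (!a.1) = hh X b a.1 := by
      intro b hb
      have := hgg b hb
      rcases ha : a.1 with _ | _ <;> simp [hh, this]
    apply key a.2.1
    · intro b hb h
      rw [hhs b hb] at h
      exact (mem_filter.mp hb).2.1 ((idA_iff X b a).mpr h)
    · intro b hb b' hb' h
      rw [hhs b hb, hhs b' hb'] at h
      exact h
  · -- different cells
    have hgg : ∀ b ∈ Sc X a a', X.gi b ≠ X.gj b := by
      intro b hb h
      have hbm := mem_filter.mp hb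
      apply hc
      rw [← hbm.2.2, pt_cell, if_pos h]
    have h0 : ∀ b ∈ Sc X a a', hh X b a.1 = ((m : ZMod (2 * m + 1)) + 1) * (a.2.1 + a'.2.1) := by
      intro b hb
      have hbm := mem_filter.mp hb
      have e1 : (pt X b a).2.1 = a'.2.1 := by rw [hbm.2.2]
      rw [pt_cell, if_neg (hgg b hb)] at e1
      have h1 := half_mul m
      apply two_cancel
      have : 2 * (((m : ZMod (2 * m + 1)) + 1) * (a.2.1 + a'.2.1)) =
        (((m : ZMod (2 * m + 1)) + 1) * 2) * (a.2.1 + a'.2.1) := by ring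
      rw [this, h1, one_mul]
      linear_combination e1
    apply key (((m : ZMod (2 * m + 1)) + 1) * (a.2.1 + a'.2.1))
    · intro b hb h
      rw [← h0 b hb] at h
      apply hgg b hb
      rcases ha : a.1 with _ | _
      · rw [ha] at h; simpa [hh] using h
      · rw [ha] at h; simpa [hh] using h.symm
    · intro b hb b' hb' _
      rw [h0 b hb, h0 b' hb']

end part1

/-- the rank of an element in a finite set -/
def rk {k : ℕ} (S : Finset (Fin k)) (b : Fin k) : ℕ := (S.filter (fun x => x < b)).card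

theorem rk_lt {k : ℕ} {S : Finset (Fin k)} {b : Fin k} (hb : b ∈ S) : rk S b < S.card := by
  unfold rk
  apply Finset.card_lt_card
  rw [Finset.ssubset_iff_of_subset (filter_subset _ _)]
  exact ⟨b, hb, by simp⟩

theorem rk_inj {k : ℕ} {S : Finset (Fin k)} {b b' : Fin k} (hb : b ∈ S) (hb' : b' ∈ S)
    (h : rk S b = rk S b') : b = b' := by
  have key : ∀ x ∈ S, ∀ y ∈ S, x < y → rk S x < rk S y := by
    intro x hx y _ hxy
    unfold rk
    apply Finset.card_lt_card
    rw [Finset.ssubset_iff_of_subset]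
    · exact ⟨x, by simp [hx, hxy], by simp⟩
    · intro z hz
      simp only [mem_filter] at hz ⊢
      exact ⟨hz.1, hz.2.trans hxy⟩
  rcases lt_trichotomy b b' with h1 | h1 | h1
  · exact absurd h (key b hb b' hb' h1).ne
  · exact h1
  · exact absurd h (key b' hb' b hb h1).ne'

section part2
variable {m r : ℕ} {V : Type u} [Fintype V] {k d : ℕ} {G : SimpleGraph V} {U : Finset V}
  {F : V → Finset (Fin k)} (X : Ctx m r k d G U F)

/-- `M` is a system of disjoint almost perfect matchings between the atoms `a` and `a'`. -/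
structure MS (a a' : Atom m r) (M : ℕ → V → V → Prop) : Prop where
  sym : ∀ i v w, M i v w → M i w v
  adj : ∀ i v w, M i v w → G.Adj v w
  inj : ∀ i v w w', M i v w → M i v w' → w = w'
  uniq : ∀ i j v w, M i v w → M j v w → i = j
  cl : ∀ i, i < 2 * m * X.u → ∀ v ∈ cls U X.at' {a}, ∀ v' ∈ cls U X.at' {a},
    (∀ w, X.at' w = a' → ¬ M i v w) → (∀ w, X.at' w = a' → ¬ M i v' w) → v = v'
  cr : ∀ i, i < 2 * m * X.u → ∀ v ∈ cls U X.at' {a'}, ∀ v' ∈ cls U X.at' {a'},
    (∀ w, X.at' w = a → ¬ M i v w) → (∀ w, X.at' w = a → ¬ M i v' w) → v = v'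
  fl : ∀ v ∈ cls U X.at' {a}, ∀ i j, i < 2 * m * X.u → j < 2 * m * X.u →
    (∀ w, X.at' w = a' → ¬ M i v w) → (∀ w, X.at' w = a' → ¬ M j v w) → i = j
  fr : ∀ v ∈ cls U X.at' {a'}, ∀ i j, i < 2 * m * X.u → j < 2 * m * X.u →
    (∀ w, X.at' w = a → ¬ M i v w) → (∀ w, X.at' w = a → ¬ M j v w) → i = j
  out : ∀ i v w, M i v w → v ∉ U ∧ w ∉ U

theorem MS.symm {a a' : Atom m r} {M : ℕ → V → V → Prop} (h : MS X a a' M) : MS X a' a M :=
  ⟨h.sym, h.adj, h.inj, h.uniq, h.cr, h.cl, h.fr, h.fl, h.out⟩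

theorem mem_cls {a : Atom m r} {v : V} : v ∈ cls U X.at' {a} ↔ v ∉ U ∧ X.at' v = a := by
  simp [cls]

include X in
theorem dpos : (0 : ℝ) < d := by
  have h := X.dbig
  have h1 : (0 : ℝ) < 10 ^ 6 * (2 * (m : ℝ) + 1) ^ 20 * (2 * (r : ℝ) + 1) ^ 3 := by positivity
  have h2 := X.dl0
  have h3 : 0 < X.dl * d := lt_of_lt_of_le h1 h
  exact (mul_pos_iff_of_pos_left h2).mp h3

theorem sigma_le : 4 * (2 * (2 * (m : ℝ) + 1) * (2 * (r : ℝ) + 1) * X.dl) ≤
    X.g * (1 / (2 * (2 * (m : ℝ) + 1) ^ 7)) := by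
  have h := X.dlsm
  have hg0 := X.g0
  have hg1 := X.g1
  have hdl := X.dl0
  set a : ℝ := 2 * (m : ℝ) + 1 with ha
  set b : ℝ := 2 * (r : ℝ) + 1 with hb
  have ha1 : 1 ≤ a := by rw [ha]; have : (0:ℝ) ≤ m := Nat.cast_nonneg _; linarith
  have hb1 : 1 ≤ b := by rw [hb]; have : (0:ℝ) ≤ r := Nat.cast_nonneg _; linarith
  rw [mul_one_div, le_div_iff₀ (by positivity)]
  have h1 : X.g ^ 2 ≤ X.g := by nlinarith
  have h2 : 16 * (a ^ 8 * b) ≤ 10 ^ 6 * a ^ 12 * b ^ 2 := by
    have e1 : a ^ 8 ≤ a ^ 12 := pow_le_pow_right₀ ha1 (by norm_num)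
    have e2 : b ≤ b ^ 2 := by nlinarith
    have e3 : a ^ 8 * b ≤ a ^ 12 * b ^ 2 := mul_le_mul e1 e2 (by positivity) (by positivity)
    have e4 : 0 ≤ a ^ 12 * b ^ 2 := by positivity
    nlinarith
  calc 4 * (2 * a * b * X.dl) * (2 * a ^ 7) = X.dl * (16 * (a ^ 8 * b)) := by ring
    _ ≤ X.dl * (10 ^ 6 * a ^ 12 * b ^ 2) := mul_le_mul_of_nonneg_left h2 hdl.le
    _ ≤ X.g ^ 2 := h
    _ ≤ X.g := h1

theorem exists_MS (hR : Stmt_REGX.{u}) (a a' : Atom m r) (hne : a ≠ a') :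
    ∃ M, MS X a a' M := by
  wlog hle : (cls U X.at' {a}).card ≤ (cls U X.at' {a'}).card generalizing a a'
  · obtain ⟨M, hM⟩ := this a' a hne.symm (le_of_not_ge hle)
    exact ⟨M, hM.symm⟩
  have hd := dpos X
  have hm0 : (0 : ℝ) ≤ m := Nat.cast_nonneg _
  have hr0 : (0 : ℝ) ≤ r := Nat.cast_nonneg _
  have hqpos : 0 < (d : ℝ) / (2 * (2 * m + 1) * (2 * r + 1)) := by positivity
  have hdis : Disjoint (cls U X.at' {a}) (cls U X.at' {a'}) := by
    rw [Finset.disjoint_left]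
    intro v h1 h2
    rw [mem_cls] at h1 h2
    exact hne (h1.2.symm.trans h2.2)
  have hle1 : (cls U X.at' {a'}).card ≤ (cls U X.at' {a}).card + 1 := by
    have h1 := (X.atN a).1
    have h2 := (X.atN a').2
    exact h2.trans (Nat.add_le_add_right h1 1)
  have hD : ((2 * m * X.u : ℕ) : ℝ) ≤ (1 - 1 / (2 * (2 * (m : ℝ) + 1) ^ 7)) *
      ((d : ℝ) / (2 * (2 * m + 1) * (2 * r + 1))) := by
    have h := X.uhi
    rw [← mul_div_assoc, le_div_iff₀ (by positivity)]
    push_cast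
    calc 2 * (m : ℝ) * X.u * (2 * (2 * m + 1) * (2 * r + 1)) =
        2 * (2 * (m : ℝ) + 1) * (2 * (r : ℝ) + 1) * (2 * m * X.u) := by ring
      _ ≤ _ := h
  have hη1 : 1 / (2 * (2 * (m : ℝ) + 1) ^ 7) ≤ 1 := by
    rw [div_le_one (by positivity)]
    have : (1 : ℝ) ≤ (2 * (m : ℝ) + 1) ^ 7 := one_le_pow₀ (by linarith)
    linarith
  have hfi : ∀ b c : Atom m r, FI G ((d : ℝ) / (2 * (2 * m + 1) * (2 * r + 1))) X.g
      (cls U X.at' {b}) (cls U X.at' {c}) := by
    intro b c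
    have h := X.fi {b} {c} (by simp) (by simp)
    rw [card_singleton, Nat.cast_one, one_mul] at h
    exact h
  have hdeg : ∀ (v : V) (b : Atom m r), |((nb G v ∩ cls U X.at' {b}).card : ℝ) -
      (d : ℝ) / (2 * (2 * m + 1) * (2 * r + 1))| ≤
      (2 * (2 * (m : ℝ) + 1) * (2 * (r : ℝ) + 1) * X.dl) *
        ((d : ℝ) / (2 * (2 * m + 1) * (2 * r + 1))) := by
    intro v b
    have h := X.degat v b
    have e : (2 * (2 * (m : ℝ) + 1) * (2 * (r : ℝ) + 1) * X.dl) *
        ((d : ℝ) / (2 * (2 * m + 1) * (2 * r + 1))) = X.dl * d := by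
      field_simp
    rw [e]
    exact h
  obtain ⟨M, h1, h2, h3, h4, h5, h6, h7⟩ := hR G ((d : ℝ) / (2 * (2 * m + 1) * (2 * r + 1))) X.g
    (1 / (2 * (2 * (m : ℝ) + 1) ^ 7)) (2 * (2 * (m : ℝ) + 1) * (2 * (r : ℝ) + 1) * X.dl)
    (2 * m * X.u) (cls U X.at' {a}) (cls U X.at' {a'}) hqpos X.g0
    (by have := X.g1; linarith) (by positivity) hη1 (by have := X.dl0; positivity)
    (sigma_le X) hD hdis hle hle1 (hfi a a') (hfi a' a) (fun v _ => hdeg v a')
    (fun v _ => hdeg v a)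
  have hab : ∀ i x y, M i x y → x ∉ U ∧ X.at' x = a ∧ y ∉ U ∧ X.at' y = a' := by
    intro i x y h
    obtain ⟨e1, e2, _⟩ := h1 i x y h
    rw [mem_cls] at e1 e2
    exact ⟨e1.1, e1.2, e2.1, e2.2⟩
  refine ⟨fun i v w => ∃ h : i < 2 * m * X.u, M ⟨i, h⟩ v w ∨ M ⟨i, h⟩ w v, ?_⟩
  refine ⟨?_, ?_, ?_, ?_, ?_, ?_, ?_, ?_, ?_⟩
  · rintro i v w ⟨h, h' | h'⟩
    · exact ⟨h, Or.inr h'⟩
    · exact ⟨h, Or.inl h'⟩
  · rintro i v w ⟨h, h' | h'⟩
    · exact (h1 _ _ _ h').2.2
    · exact (h1 _ _ _ h').2.2.symm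
  · rintro i v w w' ⟨h, h' | h'⟩ ⟨_, h'' | h''⟩
    · exact h3 _ _ _ _ h' h''
    · exact absurd ((hab _ _ _ h').2.1.symm.trans (hab _ _ _ h'').2.2.2) hne
    · exact absurd ((hab _ _ _ h'').2.1.symm.trans (hab _ _ _ h').2.2.2) hne
    · exact h4 _ _ _ _ h' h''
  · rintro i j v w ⟨h, h' | h'⟩ ⟨hj, h'' | h''⟩
    · exact congrArg Fin.val (h5 _ _ _ _ h' h'')
    · exact absurd ((hab _ _ _ h').2.1.symm.trans (hab _ _ _ h'').2.2.2) hne
    · exact absurd ((hab _ _ _ h'').2.1.symm.trans (hab _ _ _ h').2.2.2) hne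
    · exact congrArg Fin.val (h5 _ _ _ _ h' h'')
  · intro i hi v hv v' _ hn _
    obtain ⟨y, hy⟩ := h2 ⟨i, hi⟩ v hv
    exact absurd ⟨hi, Or.inl hy⟩ (hn y (hab _ _ _ hy).2.2.2)
  · intro i hi v hv v' hv' hn hn'
    have h8 := Finset.card_le_one.mp (h6 ⟨i, hi⟩)
    apply h8
    · rw [mem_filter]
      exact ⟨hv, fun x hx => hn x (hab _ _ _ hx).2.1 ⟨hi, Or.inr hx⟩⟩
    · rw [mem_filter]
      exact ⟨hv', fun x hx => hn' x (hab _ _ _ hx).2.1 ⟨hi, Or.inr hx⟩⟩
  · intro v hv i j hi _ hn _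
    obtain ⟨y, hy⟩ := h2 ⟨i, hi⟩ v hv
    exact absurd ⟨hi, Or.inl hy⟩ (hn y (hab _ _ _ hy).2.2.2)
  · intro v hv i j hi hj hn hn'
    have h8 := Finset.card_le_one.mp (h7 v hv)
    have h9 := h8 ⟨i, hi⟩ (by
      rw [mem_filter]
      exact ⟨mem_univ _, fun x hx => hn x (hab _ _ _ hx).2.1 ⟨hi, Or.inr hx⟩⟩) ⟨j, hj⟩ (by
      rw [mem_filter]
      exact ⟨mem_univ _, fun x hx => hn' x (hab _ _ _ hx).2.1 ⟨hj, Or.inr hx⟩⟩)
    exact congrArg Fin.val h9
  · rintro i v w ⟨h, h' | h'⟩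
    · exact ⟨(hab _ _ _ h').1, (hab _ _ _ h').2.2.1⟩
    · exact ⟨(hab _ _ _ h').2.2.1, (hab _ _ _ h').1⟩

/-- the number of the colour `b` in the system of matchings between `a` and `a'` -/
noncomputable def nm (b : Fin k) (a a' : Atom m r) : ℕ := rk (Sc X a a') b

theorem nm_symm (b : Fin k) (a a' : Atom m r) : nm X b a a' = nm X b a' a := by
  unfold nm
  rw [Sc_symm]

theorem nm_lt {b : Fin k} {a a' : Atom m r} (hb : b ∈ Sc X a a') : nm X b a a' < 2 * m * X.u :=
  lt_of_lt_of_le (rk_lt hb) (Sc_card X a a')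

theorem STR_of (hR : Stmt_REGX.{u}) : Nonempty (Str X) := by
  have hex : ∀ e : Sym2 (Atom m r), ∃ M : ℕ → V → V → Prop,
      ∀ a a' : Atom m r, e = s(a, a') → a ≠ a' → MS X a a' M := by
    intro e
    induction e using Sym2.ind with
    | _ x y =>
      by_cases hxy : x = y
      · refine ⟨fun _ _ _ => False, ?_⟩
        intro a a' h hne
        rw [Sym2.eq_iff] at h
        rcases h with ⟨h1, h2⟩ | ⟨h1, h2⟩
        · exact absurd (h1.symm.trans (hxy.trans h2)) hne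
        · exact absurd (h2.symm.trans (hxy.symm.trans h1)) hne
      · obtain ⟨M, hM⟩ := exists_MS X hR x y hxy
        refine ⟨M, ?_⟩
        intro a a' h hne
        rw [Sym2.eq_iff] at h
        rcases h with ⟨h1, h2⟩ | ⟨h1, h2⟩
        · rw [← h1, ← h2]; exact hM
        · rw [← h1, ← h2]; exact hM.symm
  choose Mat hMat using hex
  have hMS : ∀ a a' : Atom m r, a ≠ a' → MS X a a' (Mat s(a, a')) :=
    fun a a' h => hMat s(a, a') a a' rfl h
  obtain ⟨E, hE⟩ : ∃ E : Fin k → V → V → Prop, ∀ b v w, E b v w ↔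
      (b ∈ Sc X (X.at' v) (X.at' w) ∧ X.at' v ≠ X.at' w ∧
        Mat s(X.at' v, X.at' w) (nm X b (X.at' v) (X.at' w)) v w) :=
    ⟨_, fun _ _ _ => Iff.rfl⟩
  refine ⟨{
    E := E
    sym := ?_
    adj := ?_
    rho := ?_
    inj := ?_
    uniq := ?_
    part := ?_
    few := ?_ }⟩
  · intro b v w h
    obtain ⟨h1, h2, h3⟩ := (hE b v w).mp h
    refine (hE b w v).mpr ⟨by rw [Sc_symm]; exact h1, h2.symm, ?_⟩
    rw [Sym2.eq_swap, nm_symm]
    exact (hMS _ _ h2).sym _ _ _ h3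
  · intro b v w h
    obtain ⟨h1, h2, h3⟩ := (hE b v w).mp h
    have hS := mem_filter.mp h1
    have ho := (hMS _ _ h2).out _ _ _ h3
    refine ⟨⟨(hMS _ _ h2).adj _ _ _ h3, ?_⟩, hS.1, ho.1, ?_⟩
    · have e1 : (pt X b (X.at' v)).1 = (X.at' w).1 := by rw [hS.2.2]
      exact e1
    · exact fun h => hS.2.1 h.2
  · intro b v w h
    obtain ⟨h1, h2, h3⟩ := (hE b v w).mp h
    have hS := mem_filter.mp h1
    have e1 : (pt X b (X.at' v)).2.2 = (X.at' w).2.2 := by rw [hS.2.2]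
    exact e1.symm
  · intro b v w w' h h'
    obtain ⟨h1, h2, h3⟩ := (hE b v w).mp h
    obtain ⟨h1', h2', h3'⟩ := (hE b v w').mp h'
    have hS := mem_filter.mp h1
    have hS' := mem_filter.mp h1'
    have e : X.at' w = X.at' w' := hS.2.2.symm.trans hS'.2.2
    rw [← e] at h3'
    exact (hMS _ _ h2).inj _ _ _ _ h3 h3'
  · intro b b' v w h h'
    obtain ⟨h1, h2, h3⟩ := (hE b v w).mp h
    obtain ⟨h1', h2', h3'⟩ := (hE b' v w).mp h'
    have e := (hMS _ _ h2).uniq _ _ _ _ h3 h3'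
    exact rk_inj h1 h1' e
  · intro b hb a hi hx
    have hne : pt X b a ≠ a := fun h => hx (pt_eq X hi h)
    rw [Finset.card_le_one]
    intro v hv v' hv'
    rw [mem_filter] at hv hv'
    have hva := (mem_cls X).mp hv.1
    have hva' := (mem_cls X).mp hv'.1
    have hSc : b ∈ Sc X a (pt X b a) := by
      rw [Sc, mem_filter]
      exact ⟨hb, hi, rfl⟩
    refine (hMS a (pt X b a) hne.symm).cl (nm X b a (pt X b a)) (nm_lt X hSc) v hv.1 v' hv'.1 ?_ ?_
    · intro w hw hM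
      apply hv.2 w
      rw [hE, hva.2, hw]
      exact ⟨hSc, hne.symm, hM⟩
    · intro w hw hM
      apply hv'.2 w
      rw [hE, hva'.2, hw]
      exact ⟨hSc, hne.symm, hM⟩
  · intro v hv
    have hcl : v ∈ cls U X.at' {X.at' v} := (mem_cls X).mpr ⟨hv, rfl⟩
    have hc : Fintype.card (ZMod (2 * m + 1) × ZMod (2 * r + 1)) = (2 * m + 1) * (2 * r + 1) := by
      rw [Fintype.card_prod, ZMod.card, ZMod.card]
    rw [← hc, ← Finset.card_univ]
    apply Finset.card_le_card_of_injOn (fun b => (pt X b (X.at' v)).2)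
    · intro b _
      simp
    · intro b hb b' hb' h
      have hb1 := mem_filter.mp (mem_coe.mp hb)
      have hb1' := mem_filter.mp (mem_coe.mp hb')
      have h : (pt X b (X.at' v)).2 = (pt X b' (X.at' v)).2 := h
      have hpp : pt X b (X.at' v) = pt X b' (X.at' v) := Prod.ext rfl h
      have hni : ¬ X.idA b (X.at' v) := fun hh => hb1.2.1 ⟨hv, hh⟩
      have hni' : ¬ X.idA b' (X.at' v) := fun hh => hb1'.2.1 ⟨hv, hh⟩
      have hne : X.at' v ≠ pt X b (X.at' v) := fun hh => hb1.2.2.1 (pt_eq X hni hh.symm)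
      have hS : b ∈ Sc X (X.at' v) (pt X b (X.at' v)) := by
        rw [Sc, mem_filter]; exact ⟨hb1.1, hni, rfl⟩
      have hS' : b' ∈ Sc X (X.at' v) (pt X b (X.at' v)) := by
        rw [Sc, mem_filter]; exact ⟨hb1'.1, hni', hpp.symm⟩
      refine rk_inj hS hS' ?_
      refine (hMS _ _ hne).fl v hcl _ _ (nm_lt X hS) (nm_lt X hS') ?_ ?_
      · intro w hw hM
        apply hb1.2.2.2 w
        rw [hE, hw]
        exact ⟨hS, hne, hM⟩
      · intro w hw hM
        apply hb1'.2.2.2 w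
        rw [hE, hw]
        exact ⟨hS', hne, hM⟩

end part2

theorem stmt_STR_of (hR : Stmt_REGX.{u}) : Stmt_STR.{u} := by
  intro m r V _ k d G U F X
  exact STR_of X hR

end Pool.Agent.Work.MP_db9399_exp.helper46
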