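import Mathlib
import Pool.Agent.Work.MP_db9399_exp_helper46.INSC
import Pool.Agent.Work.MP_db9399_exp_helper75.TDefs

/-!
# Part ZB of block TASK of THEOREM EXP: the loads
-/

set_option autoImplicit false
set_option linter.unusedSectionVars false

namespace Pool.Agent.Work.MP_db9399_exp.helper46

open Finset Classical
open Pool.Agent.Work.MP_db9399_all (nb mis)
open Pool.Agent.Work.MP_db9399_qr (cov PEC ins sd PMat W0 imb ZQ Good)
open Pool.Agent.Work.MP_db9399_exp
open Pool.Agent.Work.MP_db9399_exp.helper38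
open Pool.Agent.Work.MP_db9399_exp.helper75 (W sg tc fr isG isT kap zz Cand Stmt_ZB)
open INSAux

universe u

namespace ZBAux

theorem num_ZB (M1 R1 r g d n N U u : ℝ) (hr : R1 = 2 * r + 1) (hM : 10 ^ 9 ≤ M1)
    (hRM : 100 * M1 ≤ R1) (hg0 : 0 < g) (hg1 : g ≤ 1 / 100) (hmb : 10 ^ 5 ≤ g ^ 2 * M1)
    (h1 : n - U ≤ 2 * (M1 * R1) * (N + 1)) (h2 : (2 + 10 * g) * d ≤ n)
    (h3 : 2 * M1 * R1 * ((M1 - 1) * u) ≤ d) (h5 : 10 ^ 4 * (M1 * R1) ≤ N)
    (h6 : 100 * U ≤ N) :
    M1 * (R1 * u + 1) + g / (100 * M1) * n + 4 * (1 + U) ≤ r * N - 1 - U := by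
  have hM0 : 0 < M1 := lt_of_lt_of_le (by norm_num) hM
  have hR0 : 0 < R1 := by linarith
  have hr0 : 0 < r := by linarith
  have hMr : M1 ≤ r := by linarith
  have hMR : 1 ≤ M1 * R1 := by nlinarith
  have hN0 : 0 < N := by linarith
  have hN4 : 10 ^ 4 ≤ N := by linarith
  have hgM : 10 ^ 7 ≤ g * M1 := by
    have e1 : g ^ 2 * M1 = g * (g * M1) := by ring
    rw [e1] at hmb
    have e2 : g * (g * M1) ≤ 1 / 100 * (g * M1) := mul_le_mul_of_nonneg_right hg1 (by positivity)
    linarith
  have hgr : 10 ^ 7 ≤ g * r := hgM.trans (mul_le_mul_of_nonneg_left hMr hg0.le)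
  -- n
  have hn : n ≤ 4 * (M1 * N * (r + 1)) := by
    have e1 : 2 * (M1 * R1) ≤ 2 / 10 ^ 4 * N := by linarith
    have e2 : 2 * (M1 * R1) * (N + 1) = 2 * M1 * R1 * N + 2 * (M1 * R1) := by ring
    have e3 : 2 * M1 * R1 * N = 4 * (M1 * N * (r + 1)) - 2 * (M1 * N) := by rw [hr]; ring
    have e4 : N ≤ M1 * N := le_mul_of_one_le_left hN0.le (by linarith)
    linarith
  -- claim A
  have hy : M1 * R1 * u ≤ r * N * (1 - 4 * g) := by
    have a1 : (M1 - 1) * (1 + 5 * g) * (M1 * R1 * u) ≤ M1 * N * (r + 1) := by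
      have e1 : (2 + 10 * g) * (2 * M1 * R1 * ((M1 - 1) * u)) ≤ (2 + 10 * g) * d :=
        mul_le_mul_of_nonneg_left h3 (by linarith)
      have e2 : (2 + 10 * g) * (2 * M1 * R1 * ((M1 - 1) * u)) =
        4 * ((M1 - 1) * (1 + 5 * g) * (M1 * R1 * u)) := by ring
      rw [e2] at e1
      linarith
    have a2 : M1 * N * (r + 1) ≤ (M1 - 1) * (1 + 5 * g) * (r * N * (1 - 4 * g)) := by
      have e1 : (1 + 4 / 5 * g) ≤ (1 + 5 * g) * (1 - 4 * g) := by nlinarith
      have e2 : M1 * (r + 1) ≤ (M1 - 1) * (1 + 4 / 5 * g) * r := by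
        have f1 : (M1 - 1) * (1 + 4 / 5 * g) * r = M1 * r - r + 4 / 5 * ((g * M1) * r) -
          4 / 5 * (g * r) := by ring
        have f2 : 10 ^ 7 * r ≤ (g * M1) * r := mul_le_mul_of_nonneg_right hgM hr0.le
        have f3 : g * r ≤ 1 * r := mul_le_mul_of_nonneg_right (by linarith) hr0.le
        rw [f1]
        linarith
      have e3 : (M1 - 1) * (1 + 4 / 5 * g) * r ≤ (M1 - 1) * ((1 + 5 * g) * (1 - 4 * g)) * r := by
        apply mul_le_mul_of_nonneg_right _ hr0.le
        apply mul_le_mul_of_nonneg_left e1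
        linarith
      have e4 := mul_le_mul_of_nonneg_left (e2.trans e3) hN0.le
      linarith
    have a3 : 0 < (M1 - 1) * (1 + 5 * g) := by
      apply mul_pos <;> linarith
    exact le_of_mul_le_mul_left (a1.trans a2) a3
  -- claim B
  have hw : 0 < g * (r * N) := by positivity
  have hwN : 10 ^ 7 * N ≤ g * (r * N) := by
    calc 10 ^ 7 * N ≤ (g * r) * N := mul_le_mul_of_nonneg_right hgr hN0.le
      _ = g * (r * N) := by ring
  have b1 : g / (100 * M1) * n ≤ 1 / 10 * (g * (r * N)) := by
    have e1 : g / (100 * M1) * n ≤ g / (100 * M1) * (4 * (M1 * N * (r + 1))) :=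
      mul_le_mul_of_nonneg_left hn (by positivity)
    have e2 : g / (100 * M1) * (4 * (M1 * N * (r + 1))) = 1 / 25 * (g * (r * N)) +
      1 / 25 * (g * N) := by field_simp; ring
    have e3 : g * N ≤ g * (r * N) := by
      apply mul_le_mul_of_nonneg_left _ hg0.le
      apply le_mul_of_one_le_left hN0.le
      linarith
    linarith
  have b2 : M1 ≤ N := by
    have : M1 ≤ M1 * R1 := le_mul_of_one_le_right hM0.le (by linarith)
    linarith
  have e5 : M1 * (R1 * u + 1) = M1 * R1 * u + M1 := by ring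
  have e6 : r * N * (1 - 4 * g) = r * N - 4 * (g * (r * N)) := by ring
  rw [e5]
  rw [e6] at hy
  linarith

section Z
variable {m r : ℕ} {V : Type u} [Fintype V] {k d : ℕ} {G : SimpleGraph V} {U : Finset V}
  {F : V → Finset (Fin k)} (X : Ctx m r k d G U F) (I : Ins X)

theorem A_card (s : Bool) (κ : ZMod (2 * m + 1)) : (r + 1) * X.N ≤
    (univ.filter (fun v => X.side v = s ∧ X.cell v = κ ∧ v ∉ U ∧ X.sub v ∈ X.GS)).card := by
  rw [card_eq_sum_card_fiberwise (f := X.sub) (t := X.GS)]
  · rw [← X.GScard, ← smul_eq_mul, ← sum_const]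
    refine sum_le_sum fun s' hs' => ?_
    refine (X.atN ((s, κ, s') : Atom m r)).1.trans (card_le_card ?_)
    intro v hv
    rw [mem_cls, mem_singleton, Prod.mk.injEq, Prod.mk.injEq] at hv
    obtain ⟨h1, h2, h3, h4⟩ := hv
    rw [mem_filter, mem_filter]
    exact ⟨⟨mem_univ _, h2, h3, h1, h4 ▸ hs'⟩, h4⟩
  · intro v hv
    rw [mem_coe, mem_filter] at hv
    exact hv.2.2.2.2

theorem cand_card (t : Fin k ⊕ Fin 4) :
    r * X.N ≤ (Cand X I t).card + 1 + U.card := by
  have h1 := A_card X (sg X I t) (kap X I t)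
  set A := univ.filter (fun v => X.side v = sg X I t ∧ X.cell v = kap X I t ∧ v ∉ U ∧
    X.sub v ∈ X.GS) with hA
  have hAm : ∀ v, v ∈ A ↔ X.side v = sg X I t ∧ X.cell v = kap X I t ∧ v ∉ U ∧
      X.sub v ∈ X.GS := by
    intro v
    rw [hA, mem_filter]
    exact ⟨fun h => h.2, fun h => ⟨mem_univ _, h⟩⟩
  clear_value A
  have h2 : A ⊆ Cand X I t ∪ (A.filter (fun v => ∃ b, t = Sum.inl b ∧ X.c v = b) ∪
      A.filter (fun v => ∃ b ∈ X.Ga, t = Sum.inl b ∧ v ∈ cov X.R I.t b)) := by
    intro v hv
    rw [mem_union, mem_union, mem_filter, mem_filter]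
    by_cases c1 : ∃ b, t = Sum.inl b ∧ X.c v = b
    · exact Or.inr (Or.inl ⟨hv, c1⟩)
    · by_cases c2 : ∃ b ∈ X.Ga, t = Sum.inl b ∧ v ∈ cov X.R I.t b
      · exact Or.inr (Or.inr ⟨hv, c2⟩)
      · left
        have hv' := (hAm v).1 hv
        unfold Cand
        rw [mem_filter]
        refine ⟨mem_univ _, hv'.1, hv'.2.1, hv'.2.2.1, X.PalG _ hv'.2.2.2 (X.cP v hv'.2.2.1), ?_, ?_⟩
        · intro b hb hc
          exact c1 ⟨b, hb, hc⟩
        · intro b hb ht hc
          exact c2 ⟨b, hb, ht, hc⟩
  have h3 : (A.filter (fun v => ∃ b, t = Sum.inl b ∧ X.c v = b)).card ≤ X.N + 1 := by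
    rcases (A.filter (fun v => ∃ b, t = Sum.inl b ∧ X.c v = b)).eq_empty_or_nonempty with h | h
    · rw [h, card_empty]
      omega
    · obtain ⟨v0, hv0⟩ := h
      rw [mem_filter, hAm] at hv0
      obtain ⟨⟨a1, a2, a3, a4⟩, b, hb, hcb⟩ := hv0
      refine (card_le_card ?_).trans
        (X.atN ((sg X I t, kap X I t, X.sub v0) : Atom m r)).2
      intro v hv
      rw [mem_filter, hAm] at hv
      obtain ⟨⟨b1, b2, b3, b4⟩, b', hb', hcb'⟩ := hv
      have e1 : b = b' := Sum.inl.inj (hb.symm.trans hb')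
      have e2 : X.sub v = X.sub v0 := by
        by_contra hne
        have p1 := X.cP v b3
        have p2 := X.cP v0 a3
        rw [hcb', ← e1] at p1
        rw [hcb] at p2
        exact Finset.disjoint_left.1 (X.Pald _ _ hne) p1 p2
      rw [mem_cls, mem_singleton, Prod.mk.injEq, Prod.mk.injEq]
      exact ⟨b3, b1, b2, e2⟩
  have h4 : (A.filter (fun v => ∃ b ∈ X.Ga, t = Sum.inl b ∧ v ∈ cov X.R I.t b)).card ≤
      U.card := by
    rcases (A.filter (fun v => ∃ b ∈ X.Ga, t = Sum.inl b ∧ v ∈ cov X.R I.t b)).eq_empty_or_nonempty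
      with h | h
    · rw [h, card_empty]
      omega
    · obtain ⟨v0, hv0⟩ := h
      rw [mem_filter] at hv0
      obtain ⟨-, b, hb, hbt, -⟩ := hv0
      have h5 : (A.filter (fun v => ∃ b ∈ X.Ga, t = Sum.inl b ∧ v ∈ cov X.R I.t b)) ⊆
          U.biUnion (fun w => (nb X.R w).filter (fun v => I.t w v = b)) := by
        intro v hv
        rw [mem_filter, hAm] at hv
        obtain ⟨⟨b1, b2, b3, b4⟩, b', hb', hbt', hc⟩ := hv
        have e1 : b = b' := Sum.inl.inj (hbt.symm.trans hbt')
        subst e1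
        obtain ⟨w, hw, hwb⟩ := mem_cov.1 hc
        have hid : X.idl b v := by
          refine ⟨b3, ?_⟩
          have hk : kap X I t = if sg X I t = true then X.gi b else X.gj b := by
            rw [hbt]
            unfold kap
            simp only [if_pos hb]
          rw [hk] at b2
          constructor
          · intro hs
            have hs' : X.side v = true := hs
            rw [b1] at hs'
            rw [hs', if_pos rfl] at b2
            exact b2.symm
          · intro hs
            have hs' : X.side v = false := hs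
            rw [b1] at hs'
            rw [hs'] at b2
            simp only [Bool.false_eq_true, if_false] at b2
            exact b2.symm
        have hwU := I.icov v w hw (hwb ▸ hb) (hwb ▸ hid)
        rw [mem_biUnion]
        refine ⟨w, hwU, ?_⟩
        rw [mem_filter, INSAux.mem_nb]
        exact ⟨hw.symm, (I.pec.1 w v).trans hwb⟩
      refine (card_le_card h5).trans (card_biUnion_le.trans ?_)
      calc ∑ w ∈ U, ((nb X.R w).filter (fun v => I.t w v = b)).card ≤ ∑ w ∈ U, 1 := by
            refine sum_le_sum fun w _ => ?_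
            rw [card_le_one]
            intro x hx y hy
            rw [mem_filter] at hx hy
            exact I.pec.2 w (mem_coe.2 hx.1) (mem_coe.2 hy.1) (hx.2.trans hy.2.symm)
        _ = U.card := by simp
  have h5 := (card_le_card h2).trans ((card_union_le _ _).trans
    (Nat.add_le_add_left (card_union_le _ _) _))
  have h6 : (r + 1) * X.N = r * X.N + X.N := by ring
  omega

/-- the load of the colours of `Ga` -/
theorem load_Ga (t : Fin k ⊕ Fin 4) :
    ∑ b ∈ X.Ga.filter (fun b => ¬ Disjoint (Cand X I (Sum.inl b)) (Cand X I t)),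
      zz X I (Sum.inl b) ≤ (2 * m + 1) * ((2 * r + 1) * X.u + 1) := by
  have hkey : ∀ b ∈ X.Ga.filter (fun b => ¬ Disjoint (Cand X I (Sum.inl b)) (Cand X I t)),
      b ∈ X.Ga ∧ sg X I (Sum.inl b) = sg X I t ∧
        (if sg X I t = true then X.gi b else X.gj b) = kap X I t := by
    intro b hb
    rw [mem_filter, Finset.not_disjoint_iff] at hb
    obtain ⟨hb, v, hv1, hv2⟩ := hb
    unfold Cand at hv1 hv2
    rw [mem_filter] at hv1 hv2
    have e1 : sg X I (Sum.inl b) = sg X I t := hv1.2.1.symm.trans hv2.2.1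
    refine ⟨hb, e1, ?_⟩
    have e2 : kap X I (Sum.inl b) = kap X I t := hv1.2.2.1.symm.trans hv2.2.2.1
    rw [← e2, ← e1]
    unfold kap
    simp only [if_pos hb]
  have hW : ∀ b ∈ X.Ga, W X I (Sum.inl b) = W0 X.R U F X.c I.t b := by
    intro b hb
    unfold W
    simp only [if_pos (mem_union_left X.Pe hb)]
  rcases hs : sg X I t with _ | _
  · have h1 : ((∑ b ∈ X.Ga.filter (fun b => ¬ Disjoint (Cand X I (Sum.inl b)) (Cand X I t)),
        zz X I (Sum.inl b) : ℕ) : ℤ) ≤
        ∑ b ∈ (univ : Finset (ZMod (2 * m + 1))).biUnion (fun i => X.Ga.filter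
          (fun b => X.gi b = i ∧ X.gj b = kap X I t)),
          max (-(imb X.side (W0 X.R U F X.c I.t b))) 0 := by
      push_cast
      refine le_trans (sum_le_sum (g := fun b => max (-(imb X.side (W0 X.R U F X.c I.t b))) 0)
        fun b hb => ?_) ?_
      · obtain ⟨a1, a2, a3⟩ := hkey b hb
        unfold zz
        rw [hW b a1]
        rw [hs] at a2
        unfold sg at a2
        rw [hW b a1, decide_eq_false_iff_not, not_le] at a2
        omega
      · apply sum_le_sum_of_subset_of_nonneg
        · intro b hb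
          obtain ⟨a1, a2, a3⟩ := hkey b hb
          rw [mem_biUnion]
          refine ⟨X.gi b, mem_univ _, ?_⟩
          rw [mem_filter]
          rw [hs] at a3
          simp only [Bool.false_eq_true, if_false] at a3
          exact ⟨a1, rfl, a3⟩
        · intro _ _ _
          exact le_max_right _ _
    rw [sum_biUnion] at h1
    · have h2 : ∑ i : ZMod (2 * m + 1), ∑ b ∈ X.Ga.filter
          (fun b => X.gi b = i ∧ X.gj b = kap X I t),
          max (-(imb X.side (W0 X.R U F X.c I.t b))) 0 ≤
          ∑ i : ZMod (2 * m + 1), ((2 * (r : ℤ) + 1) * X.u + 1) :=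
        sum_le_sum fun i _ => I.imbn i (kap X I t)
      rw [sum_const, card_univ, ZMod.card, nsmul_eq_mul] at h2
      have h3 := h1.trans h2
      exact_mod_cast h3
    · intro i _ j _ hij
      change Disjoint _ _
      rw [Finset.disjoint_left]
      intro b hb hb'
      rw [mem_filter] at hb hb'
      exact hij (hb.2.1.symm.trans hb'.2.1)
  · have h1 : ((∑ b ∈ X.Ga.filter (fun b => ¬ Disjoint (Cand X I (Sum.inl b)) (Cand X I t)),
        zz X I (Sum.inl b) : ℕ) : ℤ) ≤
        ∑ b ∈ (univ : Finset (ZMod (2 * m + 1))).biUnion (fun j => X.Ga.filter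
          (fun b => X.gi b = kap X I t ∧ X.gj b = j)),
          max (imb X.side (W0 X.R U F X.c I.t b)) 0 := by
      push_cast
      refine le_trans (sum_le_sum (g := fun b => max (imb X.side (W0 X.R U F X.c I.t b)) 0)
        fun b hb => ?_) ?_
      · obtain ⟨a1, a2, a3⟩ := hkey b hb
        unfold zz
        rw [hW b a1]
        rw [hs] at a2
        unfold sg at a2
        rw [hW b a1, decide_eq_true_eq] at a2
        omega
      · apply sum_le_sum_of_subset_of_nonneg
        · intro b hb
          obtain ⟨a1, a2, a3⟩ := hkey b hb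
          rw [mem_biUnion]
          refine ⟨X.gj b, mem_univ _, ?_⟩
          rw [mem_filter]
          rw [hs, if_pos rfl] at a3
          exact ⟨a1, a3, rfl⟩
        · intro _ _ _
          exact le_max_right _ _
    rw [sum_biUnion] at h1
    · have h2 : ∑ j : ZMod (2 * m + 1), ∑ b ∈ X.Ga.filter
          (fun b => X.gi b = kap X I t ∧ X.gj b = j),
          max (imb X.side (W0 X.R U F X.c I.t b)) 0 ≤
          ∑ j : ZMod (2 * m + 1), ((2 * (r : ℤ) + 1) * X.u + 1) :=
        sum_le_sum fun j _ => I.imbp (kap X I t) j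
      rw [sum_const, card_univ, ZMod.card, nsmul_eq_mul] at h2
      have h3 := h1.trans h2
      exact_mod_cast h3
    · intro i _ j _ hij
      change Disjoint _ _
      rw [Finset.disjoint_left]
      intro b hb hb'
      rw [mem_filter] at hb hb'
      exact hij (hb.2.2.symm.trans hb'.2.2)

/-- the load of the colours of `Pe` -/
theorem load_Pe : ((∑ b ∈ X.Pe, zz X I (Sum.inl b) : ℕ) : ℝ) ≤
    X.g / (100 * (2 * m + 1)) * Fintype.card V := by
  refine le_trans (le_of_eq ?_) I.imbP
  push_cast
  refine sum_congr rfl fun b hb => ?_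
  have hW : W X I (Sum.inl b) = W0 X.R U F X.c I.t b := by
    unfold W
    simp only [if_pos (mem_union_right X.Ga hb)]
  unfold zz
  rw [hW, Nat.cast_natAbs]
  push_cast
  rfl

theorem load_none (b : Fin k) (hb : b ∉ X.Ga ∪ X.Pe) : zz X I (Sum.inl b) = 0 := by
  unfold zz W
  simp only [if_neg hb]
  unfold imb
  simp

/-- the load of a reference matching -/
theorem load_ref (j : Fin 4) : zz X I (Sum.inr j) ≤ 1 + U.card := by
  have hZ : ZQ X.side F (univ \ (X.Ga ∪ X.Pe)) j ⊆ U := by
    intro v hv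
    unfold ZQ at hv
    rw [mem_filter] at hv
    by_contra hU
    rw [X.F0 v hU] at hv
    simp at hv
  set Z := ZQ X.side F (univ \ (X.Ga ∪ X.Pe)) j with hZd
  have hZc : (Z ∩ sd X.side true).card + (Z ∩ sd X.side false).card ≤ U.card := by
    rw [← card_union_of_disjoint]
    · apply card_le_card
      intro v hv
      rw [mem_union, mem_inter, mem_inter] at hv
      rcases hv with h | h
      · exact hZ h.1
      · exact hZ h.1
    · rw [Finset.disjoint_left]
      intro v hv hv'
      rw [mem_inter, INSAux.mem_sd] at hv hv'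
      rw [hv.2] at hv'
      exact absurd hv'.2 (by simp)
  unfold zz
  have hp1 := X.p1
  by_cases hj : j.val % 2 = 0
  · -- only the vertices of U and of colour in Ga
    have key : ∀ s, (Wq X j ∩ sd X.side s).card + (Z ∩ sd X.side s).card =
        (univ.filter (fun u => u ∈ U ∧ X.side u = s)).card + oc X s X.GS := by
      intro s
      rw [← card_union_of_disjoint]
      · unfold oc
        rw [← card_union_of_disjoint]
        · congr 1
          ext v
          rw [mem_union, mem_inter, mem_inter, mem_union, mem_filter, mem_filter, INSAux.mem_sd]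
          unfold Wq
          rw [mem_filter, ← hZd]
          have hcG : v ∉ U → (X.c v ∈ X.Ga ↔ X.sub v ∈ X.GS) := by
            intro hv
            constructor
            · intro h
              by_contra hs
              exact Finset.disjoint_left.1 (X.PalL _ hs) (X.cP v hv) (mem_union_left _ h)
            · intro h
              exact X.PalG _ h (X.cP v hv)
          constructor
          · rintro (⟨⟨_, h1, h2⟩, h3⟩ | ⟨h1, h2⟩)
            · by_cases hU : v ∈ U
              · exact Or.inl ⟨mem_univ _, hU, h3⟩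
              · rcases h2 hj with h4 | h4
                · exact absurd h4 hU
                · exact Or.inr ⟨h3, hU, (hcG hU).1 h4⟩
            · exact Or.inl ⟨mem_univ _, hZ h1, h2⟩
          · rintro (⟨_, h1, h2⟩ | ⟨h1, h2, h3⟩)
            · by_cases hz : v ∈ Z
              · exact Or.inr ⟨hz, h2⟩
              · exact Or.inl ⟨⟨mem_univ _, hz, fun _ => Or.inl h1⟩, h2⟩
            · refine Or.inl ⟨⟨mem_univ _, fun hz => h2 (hZ hz), fun _ => Or.inr ((hcG h2).2 h3)⟩, h1⟩
        · rw [Finset.disjoint_left]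
          intro v hv hv'
          rw [mem_filter] at hv hv'
          exact hv'.2.1 hv.2.1
      · rw [Finset.disjoint_left]
        intro v hv hv'
        rw [mem_inter] at hv hv'
        unfold Wq at hv
        rw [mem_filter] at hv
        exact hv.1.2.1 hv'.1
    have e1 := key true
    have e2 := key false
    have e3 := X.Ueq
    have e4 := oc_diff X X.GS
    have e5 : W X I (Sum.inr j) = Wq X j := rfl
    rw [e5]
    unfold imb
    omega
  · have key : ∀ s, (Wq X j ∩ sd X.side s).card + (Z ∩ sd X.side s).card =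
        (sd X.side s).card := by
      intro s
      rw [← card_union_of_disjoint]
      · congr 1
        ext v
        rw [mem_union, mem_inter, mem_inter]
        unfold Wq
        rw [mem_filter, ← hZd]
        constructor
        · rintro (h | h)
          · exact h.2
          · exact h.2
        · intro h
          by_cases hz : v ∈ Z
          · exact Or.inr ⟨hz, h⟩
          · exact Or.inl ⟨⟨mem_univ _, hz, fun h0 => absurd h0 hj⟩, h⟩
      · rw [Finset.disjoint_left]
        intro v hv hv'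
        rw [mem_inter] at hv hv'
        unfold Wq at hv
        rw [mem_filter] at hv
        exact hv.1.2.1 hv'.1
    have e1 := key true
    have e2 := key false
    have e3 := X.sides
    have e5 : W X I (Sum.inr j) = Wq X j := rfl
    rw [e5]
    unfold imb
    omega

end Z

end ZBAux

open ZBAux

theorem stmt_ZB : Stmt_ZB.{u} := by
  intro m r V _ k d G U F X I t
  have hM := num_M X
  have hN := num_N X
  have h1 := cand_card X I t
  have hn := num_n X
  have hR := num_R X
  have huhi := X.uhi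
  have hM0 : (0 : ℝ) < 2 * (m : ℝ) + 1 := lt_of_lt_of_le (by norm_num) hM
  have hd0 : (0 : ℝ) ≤ d := Nat.cast_nonneg _
  have h3 : 2 * (2 * (m : ℝ) + 1) * (2 * (r : ℝ) + 1) * ((2 * (m : ℝ) + 1 - 1) * X.u) ≤ d := by
    have e1 : (2 * (m : ℝ) + 1 - 1) * X.u = 2 * m * X.u := by ring
    rw [e1]
    refine huhi.trans ?_
    have : 0 ≤ 1 / (2 * (2 * (m : ℝ) + 1) ^ 7) := by positivity
    nlinarith
  have h4 := num_ZB (2 * (m : ℝ) + 1) (2 * (r : ℝ) + 1) r X.g d (Fintype.card V) X.N U.card X.u
    rfl hM hR X.g0 X.g1 X.mbig hn X.n2 h3 hN.1 hN.2.1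
  have h1' : (r : ℝ) * X.N ≤ (Cand X I t).card + 1 + U.card := by exact_mod_cast h1
  have h5 : (2 * (m : ℝ) + 1) * ((2 * (r : ℝ) + 1) * X.u + 1) +
      X.g / (100 * (2 * (m : ℝ) + 1)) * Fintype.card V + 4 * (1 + (U.card : ℝ)) ≤
      (Cand X I t).card := by linarith
  constructor
  · have h6 : (0 : ℝ) < (Cand X I t).card := by
      refine lt_of_lt_of_le ?_ h5
      have e1 : (0 : ℝ) ≤ (2 * (m : ℝ) + 1) * ((2 * (r : ℝ) + 1) * X.u + 1) := by positivity
      have e2 : (0 : ℝ) ≤ X.g / (100 * (2 * (m : ℝ) + 1)) * Fintype.card V := by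
        have := X.g0
        positivity
      have e3 : (0 : ℝ) ≤ U.card := Nat.cast_nonneg _
      linarith
    have h7 : 0 < (Cand X I t).card := by exact_mod_cast h6
    omega
  · have h7 : ∑ t' ∈ univ.filter (fun t' => ¬ Disjoint (Cand X I t') (Cand X I t)), zz X I t' ≤
        (∑ b ∈ X.Ga.filter (fun b => ¬ Disjoint (Cand X I (Sum.inl b)) (Cand X I t)),
          zz X I (Sum.inl b)) + (∑ b ∈ X.Pe, zz X I (Sum.inl b)) +
          ∑ j : Fin 4, zz X I (Sum.inr j) := by
      rw [sum_filter, Fintype.sum_sum_type]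
      have e1 : ∑ b : Fin k, (if ¬ Disjoint (Cand X I (Sum.inl b)) (Cand X I t) then
          zz X I (Sum.inl b) else 0) ≤
          (∑ b ∈ X.Ga.filter (fun b => ¬ Disjoint (Cand X I (Sum.inl b)) (Cand X I t)),
          zz X I (Sum.inl b)) + (∑ b ∈ X.Pe, zz X I (Sum.inl b)) := by
        rw [← sum_filter]
        have e2 : univ.filter (fun b : Fin k => ¬ Disjoint (Cand X I (Sum.inl b)) (Cand X I t)) ⊆
            (X.Ga.filter (fun b => ¬ Disjoint (Cand X I (Sum.inl b)) (Cand X I t)) ∪ X.Pe) ∪
            (univ \ (X.Ga ∪ X.Pe)) := by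
          intro b hb
          rw [mem_filter] at hb
          rw [mem_union, mem_union, mem_filter, mem_sdiff, mem_union]
          by_cases c1 : b ∈ X.Ga
          · exact Or.inl (Or.inl ⟨c1, hb.2⟩)
          · by_cases c2 : b ∈ X.Pe
            · exact Or.inl (Or.inr c2)
            · refine Or.inr ⟨mem_univ _, ?_⟩
              rintro (h | h)
              · exact c1 h
              · exact c2 h
        refine (sum_le_sum_of_subset e2).trans ?_
        have e3 : ∑ b ∈ univ \ (X.Ga ∪ X.Pe), zz X I (Sum.inl b) = 0 :=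
          sum_eq_zero fun b hb => load_none X I b (mem_sdiff.1 hb).2
        have e4 : ∀ (A B : Finset (Fin k)) (f : Fin k → ℕ), ∑ b ∈ A ∪ B, f b ≤
            ∑ b ∈ A, f b + ∑ b ∈ B, f b := by
          intro A B f
          have := sum_union_inter (s₁ := A) (s₂ := B) (f := f)
          omega
        refine (e4 _ _ _).trans ?_
        rw [e3, add_zero]
        exact e4 _ _ _
      have e5 : ∑ j : Fin 4, (if ¬ Disjoint (Cand X I (Sum.inr j)) (Cand X I t) then
          zz X I (Sum.inr j) else 0) ≤ ∑ j : Fin 4, zz X I (Sum.inr j) := by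
        refine sum_le_sum fun j _ => ?_
        split_ifs
        · exact Nat.zero_le _
        · exact le_rfl
      exact Nat.add_le_add e1 e5
    have h8 := load_Ga X I t
    have h9 := load_Pe X I
    have h10 : ∑ j : Fin 4, zz X I (Sum.inr j) ≤ 4 * (1 + U.card) := by
      refine (sum_le_sum fun j _ => load_ref X I j).trans ?_
      rw [sum_const, card_univ, Fintype.card_fin, smul_eq_mul]
    have h7' : ((∑ t' ∈ univ.filter (fun t' => ¬ Disjoint (Cand X I t') (Cand X I t)),
        zz X I t' : ℕ) : ℝ) ≤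
        ((∑ b ∈ X.Ga.filter (fun b => ¬ Disjoint (Cand X I (Sum.inl b)) (Cand X I t)),
          zz X I (Sum.inl b) : ℕ) : ℝ) + ((∑ b ∈ X.Pe, zz X I (Sum.inl b) : ℕ) : ℝ) +
          ((∑ j : Fin 4, zz X I (Sum.inr j) : ℕ) : ℝ) := by exact_mod_cast h7
    have h8' : ((∑ b ∈ X.Ga.filter (fun b => ¬ Disjoint (Cand X I (Sum.inl b)) (Cand X I t)),
          zz X I (Sum.inl b) : ℕ) : ℝ) ≤ (2 * (m : ℝ) + 1) * ((2 * (r : ℝ) + 1) * X.u + 1) := by
      exact_mod_cast h8
    have h10' : ((∑ j : Fin 4, zz X I (Sum.inr j) : ℕ) : ℝ) ≤ 4 * (1 + (U.card : ℝ)) := by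
      exact_mod_cast h10
    have h11 : ((∑ t' ∈ univ.filter (fun t' => ¬ Disjoint (Cand X I t') (Cand X I t)),
        zz X I t' : ℕ) : ℝ) ≤ (Cand X I t).card := by linarith
    exact_mod_cast h11

end Pool.Agent.Work.MP_db9399_exp.helper46
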